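import Pool.Agent.Q283.FT.Core
import Pool.Agent.Q283.FT.Stm2

/-!
# Project FT (helper283), part TBF: the joint law for fixed labels
-/

set_option autoImplicit false
set_option linter.unusedSectionVars false

namespace Pool.Agent.Q96.FT

open Filter Topology Finset Module
open Pool.Agent.Q283.FT
open Pool.Agent.Q7.LK (Tab Mt)
open Pool.Agent.Y703.CQ (prs)
open Q44.JQ (lawc)
open scoped Classical

section reindex

variable {s V : Type} [Fintype s] [AddCommGroup V] [Module (ZMod 2) V]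

theorem add_self' (x : V) : x + x = 0 := by
  have h : (2 : ZMod 2) • x = x + x := two_smul _ x
  have h2 : (2 : ZMod 2) = 0 := by decide
  rw [← h, h2, zero_smul]

variable {P P' : Type} [Fintype P] [Fintype P']

theorem clL_re (g : P' ≃ P) (h : P → s → ZMod 2) (h' : P' → s → ZMod 2) (hh : ∀ p, h' p = h (g p))
    (e : (s → V) × (P → V)) : clL h' (e.1, fun p => e.2 (g p)) = clL h e := by
  refine Prod.ext rfl ?_
  funext t
  show ∑ p, h' p t • e.2 (g p) = ∑ p, h p t • e.2 p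
  rw [← Equiv.sum_comp g (fun p => h p t • e.2 p)]
  exact sum_congr rfl fun p _ => by rw [hh p]

theorem rowL_re (D : Dj s V) (g : P' ≃ P) (N : P → P → ZMod 2) (N' : P' → P' → ZMod 2)
    (h : P → s → ZMod 2) (h' : P' → s → ZMod 2)
    (hN : ∀ p q, p ≠ q → N' p q = N (g p) (g q)) (hh : ∀ p, h' p = h (g p))
    (e : (s → V) × (P → V)) (p : P') :
    rowL D N' h' (e.1, fun p => e.2 (g p)) p = rowL D N h e (g p) := by
  show ∑ q, N' p q • (e.2 (g q) + e.2 (g p)) + D.T (h' p) (e.2 (g p)) + ∑ t, h' p t • e.1 t =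
    ∑ q, N (g p) q • (e.2 q + e.2 (g p)) + D.T (h (g p)) (e.2 (g p)) + ∑ t, h (g p) t • e.1 t
  rw [hh p, ← Equiv.sum_comp g (fun q => N (g p) q • (e.2 q + e.2 (g p)))]
  congr 2
  refine sum_congr rfl fun q _ => ?_
  by_cases hq : p = q
  · subst hq
    rw [add_self', smul_zero, smul_zero]
  · rw [hN p q hq]

theorem mem_Sel (D : Dj s V) (N : P → P → ZMod 2) (h : P → s → ZMod 2) (e : (s → V) × (P → V)) :
    e ∈ Sel D N h ↔ clL h e ∈ D.𝓛 ∧ ∀ p, rowL D N h e p = 0 := by
  unfold Sel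
  rw [Submodule.mem_inf, Submodule.mem_comap, LinearMap.mem_ker, funext_iff]
  rfl

theorem sel_card (D : Dj s V) (g : P' ≃ P) (N : P → P → ZMod 2) (N' : P' → P' → ZMod 2)
    (h : P → s → ZMod 2) (h' : P' → s → ZMod 2)
    (hN : ∀ p q, p ≠ q → N' p q = N (g p) (g q)) (hh : ∀ p, h' p = h (g p)) :
    Nat.card (Sel D N h) = Nat.card (Sel D N' h') := by
  have key : ∀ e : (s → V) × (P → V),
      e ∈ Sel D N h ↔ (e.1, fun p => e.2 (g p)) ∈ Sel D N' h' := by
    intro e
    rw [mem_Sel, mem_Sel, clL_re g h h' hh e]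
    refine and_congr Iff.rfl ?_
    constructor
    · intro he p
      rw [rowL_re D g N N' h h' hN hh e p]
      exact he (g p)
    · intro he p
      have := he (g.symm p)
      rw [rowL_re D g N N' h h' hN hh e _, g.apply_symm_apply] at this
      exact this
  let E : ((s → V) × (P → V)) ≃ ((s → V) × (P' → V)) :=
    Equiv.prodCongr (Equiv.refl _) (Equiv.arrowCongr g.symm (Equiv.refl V))
  refine Nat.card_congr (Equiv.subtypeEquiv E fun e => ?_)
  rw [show E e = (e.1, fun p => e.2 (g p)) from rfl]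
  exact key e

end reindex

/-- the block without small primes -/
def blk {f k : ℕ} (φ : Fin k → Fin f → ZMod 2) : Bk (Fin f) Empty (Fin k) where
  A := fun u => u.elim
  B := fun u => u.elim
  C := fun _ u => u.elim
  hU := fun u => u.elim
  hJ := φ

theorem blk_ok {f k : ℕ} (φ : Fin k → Fin f → ZMod 2) (t₀ : Fin f) (ρ : Fin f → ZMod 2) (R : ℕ)
    (hs : ∑ j, φ j = ρ) (hm : ∀ χ, R ≤ (univ.filter fun i => φ i = χ).card) :
    (blk φ).Ok t₀ ρ R where
  rU := fun u => u.elim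
  rJ := fun u => u.elim
  nd := fun μ hμ => (hμ (funext fun u => u.elim)).elim
  many := fun χ => by
    have h : R * (Fintype.card Empty + 1) = R := by simp
    rw [h]
    exact hm χ
  tot := by
    rw [Fintype.sum_sum_type]
    simp only [Finset.univ_eq_empty, sum_empty, zero_add]
    exact hs

theorem mem_prs' {k : ℕ} (x : Fin k × Fin k) : x ∈ prs (univ : Finset (Fin k)) ↔ x.1 < x.2 := by
  unfold prs
  rw [mem_filter]
  simp only [mem_univ, true_and, true_imp_iff]
  exact ⟨fun h => h.2, fun h => ⟨(ne_of_lt h).symm, h⟩⟩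

/-- the pairs -/
def prE (k : ℕ) : {x : Fin k × Fin k // x.1 < x.2} ≃ prs (univ : Finset (Fin k)) :=
  Equiv.subtypeEquivRight fun x => (mem_prs' x).symm

/-- the symbols -/
def syE (k : ℕ) : ({x : Fin k × Fin k // x.1 < x.2} → ZMod 2) ≃ (prs (univ : Finset (Fin k)) → ZMod 2) :=
  Equiv.arrowCongr (prE k) (Equiv.refl _)

theorem syE_apply {k : ℕ} (t : {x : Fin k × Fin k // x.1 < x.2} → ZMod 2) (i j : Fin k) (h : i < j)
    (h' : (i, j) ∈ prs (univ : Finset (Fin k))) : syE k t ⟨(i, j), h'⟩ = t ⟨(i, j), h⟩ := rfl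

theorem ext_NT {f k : ℕ} (φ : Fin k → Fin f → ZMod 2) (t : {x : Fin k × Fin k // x.1 < x.2} → ZMod 2)
    (p q : Fin k) (hpq : p ≠ q) : NT (f := f) (φ, t) p q = Pool.Agent.Y703.CQ.ext (syE k t) p q := by
  unfold NT Mt Pool.Agent.Y703.CQ.ext
  rcases lt_or_gt_of_ne hpq with h | h
  · have h1 : ¬ q < p := not_lt_of_gt h
    have h2 : (p, q) ∈ prs (univ : Finset (Fin k)) := (mem_prs' _).2 h
    rw [dif_neg h1, dif_pos h, dif_pos h2, syE_apply t p q h h2, add_zero]
  · have h1 : ¬ p < q := not_lt_of_gt h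
    have h2 : (q, p) ∈ prs (univ : Finset (Fin k)) := (mem_prs' _).2 h
    have h3 : ¬ (p, q) ∈ prs (univ : Finset (Fin k)) := fun hh => h1 ((mem_prs' _).1 hh)
    rw [dif_pos h, dif_neg h3, dif_pos ⟨h2, mem_univ _⟩, syE_apply t q p h h2]

theorem nSel_eq {f k : ℕ} (D : Dj (Fin f) U2) (t₀ : Fin f) (φ : Fin k → Fin f → ZMod 2)
    (t : {x : Fin k × Fin k // x.1 < x.2} → ZMod 2) :
    nSel D (φ, t) = Nat.card (Sel D ((blk φ).N t₀ (syE k t)) (blk φ).h) := by
  unfold nSel
  refine sel_card D (Equiv.emptySum Empty (Fin k)) (NT (φ, t)) ((blk φ).N t₀ (syE k t)) φ (blk φ).h ?_ ?_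
  · rintro (p | p) (q | q) hpq
    · exact p.elim
    · exact p.elim
    · exact q.elim
    · have hpq' : p ≠ q := fun hh => hpq (by rw [hh])
      show Pool.Agent.Y703.CQ.ext (syE k t) p q + (if q < p then sgz ((blk φ).hJ p) t₀ * sgz ((blk φ).hJ q) t₀ else 0) =
        NT (φ, t) p q
      rw [ext_NT φ t p q hpq', sgz_eq, zero_mul]
      simp
  · rintro (p | p)
    · exact p.elim
    · rfl

theorem finrank_U2 : finrank (ZMod 2) U2 = 2 := by
  have h : finrank (ZMod 2) (ZMod 2 × ZMod 2) = 2 := by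
    rw [Module.finrank_prod, Module.finrank_self]
  exact h

theorem nSel_iff {f k : ℕ} (D : Dj (Fin f) U2) (t₀ : Fin f) (φ : Fin k → Fin f → ZMod 2)
    (t : {x : Fin k × Fin k // x.1 < x.2} → ZMod 2) (r : ℕ) :
    nSel D (φ, t) = 4 * 2 ^ r ↔
      finrank (ZMod 2) (Sel D ((blk φ).N t₀ (syE k t)) (blk φ).h) = finrank (ZMod 2) U2 + r := by
  rw [nSel_eq D t₀ φ t, Module.natCard_eq_pow_finrank (K := ZMod 2), Nat.card_zmod, finrank_U2,
    show 4 * 2 ^ r = 2 ^ (2 + r) by rw [pow_add]; norm_num]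
  exact ⟨fun h => Nat.pow_right_injective le_rfl h, fun h => by rw [h]⟩

theorem tbf : S_TBF := by
  intro f κ _ t₀ D ρ hs₀ hok hadj r ε hε
  obtain ⟨R, hR1, hR⟩ := f_LAJ (Fin f) κ (fun _ => U2) t₀ ρ D hs₀ hok hadj r ε hε
  refine ⟨R, fun k φ hφ hm => ?_⟩
  have h := hR Empty (Fin k) (blk φ) (blk_ok φ t₀ ρ R hφ hm)
  have hc : ((univ.filter fun α : prs (univ : Finset (Fin k)) → ZMod 2 =>
        ∀ l, finrank (ZMod 2) (Sel (D l) ((blk φ).N t₀ α) (blk φ).h) = finrank (ZMod 2) U2 + r l).card) =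
      (univ.filter fun t : {x : Fin k × Fin k // x.1 < x.2} → ZMod 2 =>
        ∀ l, nSel (D l) (φ, t) = 4 * 2 ^ r l).card := by
    symm
    refine Finset.card_equiv (syE k) fun t => ?_
    rw [mem_filter, mem_filter]
    refine and_congr (by simp) (forall_congr' fun l => ?_)
    exact nSel_iff (D l) t₀ φ t (r l)
  have hn : (2 : ℝ) ^ (prs (univ : Finset (Fin k))).card =
      (Fintype.card ({x : Fin k × Fin k // x.1 < x.2} → ZMod 2) : ℝ) := by
    rw [Fintype.card_congr (syE k), Fintype.card_fun, ZMod.card, Fintype.card_coe]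
    push_cast
    rfl
  rw [hc, hn] at h
  set B : ℝ := (Fintype.card ({x : Fin k × Fin k // x.1 < x.2} → ZMod 2) : ℝ) with hB
  have hBp : 0 < B := by
    rw [← hn]
    positivity
  set A : ℝ := ((univ.filter fun t : {x : Fin k × Fin k // x.1 < x.2} → ZMod 2 =>
        ∀ l, nSel (D l) (φ, t) = 4 * 2 ^ r l).card : ℝ) with hA
  set L : ℝ := ∏ l, lawc ((finrank (ZMod 2) (D l).pm : ℕ) : ZMod 2) (r l) with hL
  have h2 : A - L * B = (A / B - L) * B := by
    field_simp
  rw [h2, abs_mul, abs_of_pos hBp]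
  exact mul_le_mul_of_nonneg_right h hBp.le

end Pool.Agent.Q96.FT
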