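import Pool.Agent.Q96.FT.Kak

/-!
Functional calculus: lattice homomorphisms from `C([0,2]^I)` into a Banach lattice.
-/

set_option autoImplicit false
set_option linter.unusedSectionVars false
set_option linter.unusedVariables false

namespace Q96.FT

open Filter Topology

universe v

/-- the Tychonoff cube -/
abbrev Om (I : Type) : Type := I → Set.Icc (0 : ℝ) 2

/-- coordinate functions -/
def xc {I : Type} (i : I) : C(Om I, ℝ) := ⟨fun ω => (ω i : ℝ), by fun_prop⟩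

@[simp] lemma xc_apply {I : Type} (i : I) (ω : Om I) : xc i ω = (ω i : ℝ) := rfl

lemma xc_nonneg {I : Type} (i : I) (ω : Om I) : 0 ≤ xc i ω := (ω i).2.1
lemma xc_le {I : Type} (i : I) (ω : Om I) : xc i ω ≤ 2 := (ω i).2.2

section SW

variable {I : Type}

/-- A closed set of functions containing the constants and the coordinates, stable under linear
and lattice operations, is everything. -/
lemma all_mem {S : Set C(Om I, ℝ)} (hcl : IsClosed S)
    (hadd : ∀ f ∈ S, ∀ g ∈ S, f + g ∈ S) (hsmul : ∀ c : ℝ, ∀ f ∈ S, c • f ∈ S)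
    (hsup : ∀ f ∈ S, ∀ g ∈ S, f ⊔ g ∈ S) (hinf : ∀ f ∈ S, ∀ g ∈ S, f ⊓ g ∈ S)
    (h1 : (1 : C(Om I, ℝ)) ∈ S) (hx : ∀ i, xc i ∈ S) (f : C(Om I, ℝ)) : f ∈ S := by
  have h := ContinuousMap.sublattice_closure_eq_top S ⟨1, h1⟩ hinf hsup (by
    intro u a b
    by_cases hab : a = b
    · subst hab
      refine ⟨(u a) • 1, hsmul _ _ h1, by simp, by simp⟩
    · obtain ⟨i, hi⟩ := Function.ne_iff.1 hab
      have hi' : ((a i : ℝ)) - b i ≠ 0 := sub_ne_zero.2 fun h => hi (Subtype.ext h)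
      refine ⟨(u a - (u a - u b) / ((a i : ℝ) - b i) * a i) • 1 +
        ((u a - u b) / ((a i : ℝ) - b i)) • xc i,
        hadd _ (hsmul _ _ h1) _ (hsmul _ _ (hx i)), ?_, ?_⟩
      · simp
      · simp
        field_simp
        ring)
  rw [hcl.closure_eq] at h
  rw [h]
  trivial

end SW

variable {I : Type} {Z : Type v} [NormedAddCommGroup Z] [NormedSpace ℝ Z] [Lattice Z]
  [IsOrderedAddMonoid Z] [IsOrderedModule ℝ Z] [HasSolidNorm Z]

namespace IsReal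

variable {z : Z} {φ : Z → ℝ} (hφ : IsReal z φ)
include hφ

lemma zero : φ 0 = 0 := by
  have := hφ.smul 0 0 (Bd.zero z)
  rwa [zero_smul, zero_mul] at this

lemma neg {v : Z} (hv : Bd z v) : φ (-v) = -φ v := by
  have := hφ.smul (-1) v hv
  rwa [neg_one_smul, neg_one_mul] at this

lemma sub {v w : Z} (hv : Bd z v) (hw : Bd z w) : φ (v - w) = φ v - φ w := by
  rw [sub_eq_add_neg, hφ.add v (-w) hv hw.neg, hφ.neg hw, sub_eq_add_neg]

lemma mono {v w : Z} (hv : Bd z v) (hw : Bd z w) (h : v ≤ w) : φ v ≤ φ w := by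
  have := hφ.sup v w hv hw
  rw [sup_of_le_right h] at this
  rw [this]
  exact le_max_left _ _

lemma inf {v w : Z} (hv : Bd z v) (hw : Bd z w) : φ (v ⊓ w) = min (φ v) (φ w) := by
  have e : v ⊓ w = -((-v) ⊔ (-w)) := by rw [neg_sup, neg_neg, neg_neg]
  rw [e, hφ.neg (hv.neg.sup hw.neg), hφ.sup _ _ hv.neg hw.neg, hφ.neg hv, hφ.neg hw,
    max_neg_neg, neg_neg]

lemma abs {v : Z} (hv : Bd z v) : φ |v| = |φ v| := by
  show φ (v ⊔ -v) = max (φ v) (-φ v)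
  rw [hφ.sup _ _ hv hv.neg, hφ.neg hv]

end IsReal

/-- the point of the cube belonging to a real homomorphism -/
noncomputable def pt (zi : I → Z) (φ : Z → ℝ) : Om I := fun i => Set.projIcc 0 2 (by norm_num) (φ (zi i))

/-- `v` represents `f` -/
def Rep (z : Z) (zi : I → Z) (f : C(Om I, ℝ)) (v : Z) : Prop :=
  Bd z v ∧ ∀ φ : Z → ℝ, IsReal z φ → φ v = f (pt zi φ)

/-- data for the functional calculus -/
structure Dt2 (z : Z) (zi : I → Z) : Prop where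
  hz : 0 ≤ z
  h0 : ∀ i, 0 ≤ zi i
  h2 : ∀ i, zi i ≤ (2 : ℝ) • z

section Rep

variable {z : Z} {zi : I → Z}

lemma Dt2.bd (D : Dt2 z zi) (i : I) : Bd z (zi i) :=
  ⟨2, by rw [abs_of_nonneg (D.h0 i)]; exact D.h2 i⟩

lemma rep_x (D : Dt2 z zi) (i : I) : Rep z zi (xc i) (zi i) := by
  refine ⟨D.bd i, fun φ hφ => ?_⟩
  have h1 : 0 ≤ φ (zi i) := by
    rw [← hφ.zero]; exact hφ.mono (Bd.zero z) (D.bd i) (D.h0 i)
  have h2 : φ (zi i) ≤ 2 := by
    have := hφ.mono (D.bd i) ((Bd.self D.hz).smul 2) (D.h2 i)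
    rwa [hφ.smul 2 z (Bd.self D.hz), hφ.one, mul_one] at this
  show φ (zi i) = ((pt zi φ i : Set.Icc (0 : ℝ) 2) : ℝ)
  rw [pt, Set.projIcc_of_mem _ ⟨h1, h2⟩]

lemma rep_one (D : Dt2 z zi) : Rep z zi 1 z :=
  ⟨Bd.self D.hz, fun φ hφ => hφ.one⟩

lemma Rep.add {f g : C(Om I, ℝ)} {v w : Z} (hf : Rep z zi f v) (hg : Rep z zi g w) :
    Rep z zi (f + g) (v + w) :=
  ⟨hf.1.add hg.1, fun φ hφ => by
    rw [hφ.add _ _ hf.1 hg.1, hf.2 φ hφ, hg.2 φ hφ]; rfl⟩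

lemma Rep.smul {f : C(Om I, ℝ)} {v : Z} (hf : Rep z zi f v) (c : ℝ) :
    Rep z zi (c • f) (c • v) :=
  ⟨hf.1.smul c, fun φ hφ => by rw [hφ.smul _ _ hf.1, hf.2 φ hφ]; rfl⟩

lemma Rep.sup {f g : C(Om I, ℝ)} {v w : Z} (hf : Rep z zi f v) (hg : Rep z zi g w) :
    Rep z zi (f ⊔ g) (v ⊔ w) :=
  ⟨hf.1.sup hg.1, fun φ hφ => by
    rw [hφ.sup _ _ hf.1 hg.1, hf.2 φ hφ, hg.2 φ hφ]; rfl⟩

lemma Bd.inf {v w : Z} (hv : Bd z v) (hw : Bd z w) : Bd z (v ⊓ w) := by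
  have e : v ⊓ w = -((-v) ⊔ (-w)) := by rw [neg_sup, neg_neg, neg_neg]
  rw [e]; exact (hv.neg.sup hw.neg).neg

lemma Rep.inf {f g : C(Om I, ℝ)} {v w : Z} (hf : Rep z zi f v) (hg : Rep z zi g w) :
    Rep z zi (f ⊓ g) (v ⊓ w) :=
  ⟨hf.1.inf hg.1, fun φ hφ => by
    rw [hφ.inf hf.1 hg.1, hf.2 φ hφ, hg.2 φ hφ]; rfl⟩

lemma Rep.close (D : Dt2 z zi) {f g : C(Om I, ℝ)} {v w : Z} (hf : Rep z zi f v)
    (hg : Rep z zi g w) {δ : ℝ} (h : ∀ ω, |f ω - g ω| ≤ δ) : |v - w| ≤ δ • z :=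
  abs_le_of_real D.hz (hf.1.sub hg.1) fun φ hφ => by
    rw [hφ.sub hf.1 hg.1, hf.2 φ hφ, hg.2 φ hφ]; exact h _

lemma Rep.unique (D : Dt2 z zi) {f : C(Om I, ℝ)} {v w : Z} (hf : Rep z zi f v)
    (hg : Rep z zi f w) : v = w := by
  have h := hf.close D hg (δ := 0) fun ω => by simp
  rw [zero_smul] at h
  have h1 : v - w ≤ 0 := (le_abs_self _).trans h
  have h2 : -(v - w) ≤ 0 := (neg_le_abs _).trans h
  rw [neg_sub] at h2
  exact le_antisymm (sub_nonpos.1 h1) (sub_nonpos.1 h2)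

lemma Rep.nonneg (D : Dt2 z zi) {f : C(Om I, ℝ)} {v : Z} (hf : Rep z zi f v)
    (h : ∀ ω, 0 ≤ f ω) : 0 ≤ v := by
  have h1 := le_of_real (c := 0) D.hz hf.1.neg fun φ hφ => by
    rw [hφ.neg hf.1, hf.2 φ hφ]
    exact neg_nonpos.2 (h _)
  rw [zero_smul] at h1
  exact neg_nonpos.1 h1

lemma isClosed_rep [CompleteSpace Z] (D : Dt2 z zi) : IsClosed {f | ∃ v, Rep z zi f v} := by
  rw [← isSeqClosed_iff_isClosed]
  intro u f hu hlim
  choose w hw using hu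
  have hdist : ∀ m n, ‖w m - w n‖ ≤ ‖u m - u n‖ * ‖z‖ := by
    intro m n
    have h1 := (hw m).close D (hw n) (δ := ‖u m - u n‖) fun ω => by
      have := (u m - u n).norm_coe_le_norm ω
      rwa [Real.norm_eq_abs] at this
    have h2 : ‖w m - w n‖ ≤ ‖‖u m - u n‖ • z‖ := by
      refine HasSolidNorm.solid ?_
      exact h1.trans (le_abs_self _)
    rwa [norm_smul, norm_norm] at h2
  have hc : CauchySeq w := by
    have hcu := hlim.cauchySeq
    rw [Metric.cauchySeq_iff] at hcu ⊢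
    intro ε hε
    obtain ⟨N, hN⟩ := hcu (ε / (‖z‖ + 1)) (by positivity)
    refine ⟨N, fun m hm n hn => ?_⟩
    rw [dist_eq_norm]
    have h1 := hN m hm n hn
    rw [dist_eq_norm, lt_div_iff₀ (by positivity)] at h1
    have h2 : ‖u m - u n‖ * ‖z‖ ≤ ‖u m - u n‖ * (‖z‖ + 1) := by
      gcongr; linarith
    exact (hdist m n).trans_lt (h2.trans_lt h1)
  obtain ⟨v, hv⟩ := cauchySeq_tendsto_of_complete hc
  have hbound : ∀ m, |w m - v| ≤ ‖u m - f‖ • z := by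
    intro m
    have h1 : Tendsto (fun n => |w m - w n|) atTop (𝓝 |w m - v|) := by
      have h2 : Tendsto (fun n => w m - w n) atTop (𝓝 (w m - v)) := tendsto_const_nhds.sub hv
      exact (h2.sup_nhds h2.neg)
    have h3 : Tendsto (fun n => ‖u m - u n‖ • z) atTop (𝓝 (‖u m - f‖ • z)) :=
      (((tendsto_const_nhds.sub hlim).norm).smul_const z)
    refine le_of_tendsto_of_tendsto' h1 h3 fun n => ?_
    exact (hw m).close D (hw n) fun ω => by
      have := (u m - u n).norm_coe_le_norm ω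
      rwa [Real.norm_eq_abs] at this
  have hbd : ∀ m, Bd z (w m - v) := fun m => ⟨_, hbound m⟩
  have hbv : Bd z v := by
    have := (hw 0).1.sub (hbd 0)
    rwa [sub_sub_cancel] at this
  refine ⟨v, hbv, fun φ hφ => ?_⟩
  have h1 : ∀ m, |(u m) (pt zi φ) - φ v| ≤ ‖u m - f‖ := by
    intro m
    have h2 : |φ (w m - v)| ≤ ‖u m - f‖ := by
      rw [← hφ.abs (hbd m)]
      have := hφ.mono (hbd m).abs ((Bd.self D.hz).smul ‖u m - f‖) (hbound m)
      rwa [hφ.smul _ _ (Bd.self D.hz), hφ.one, mul_one] at this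
    rwa [hφ.sub (hw m).1 hbv, (hw m).2 φ hφ] at h2
  have h3 : Tendsto (fun m => ‖u m - f‖) atTop (𝓝 0) := by
    have : Tendsto (fun m => u m - f) atTop (𝓝 (f - f)) := hlim.sub_const f
    rw [sub_self] at this
    simpa using this.norm
  have h4 : Tendsto (fun m => (u m) (pt zi φ)) atTop (𝓝 (φ v)) := by
    rw [tendsto_iff_norm_sub_tendsto_zero]
    exact squeeze_zero (fun _ => norm_nonneg _) h1 h3
  have h5 : Tendsto (fun m => (u m) (pt zi φ)) atTop (𝓝 (f (pt zi φ))) :=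
    ((continuous_eval_const (pt zi φ)).tendsto f).comp hlim
  exact tendsto_nhds_unique h4 h5

theorem exists_rep [CompleteSpace Z] (D : Dt2 z zi) (f : C(Om I, ℝ)) : ∃ v, Rep z zi f v :=
  all_mem (S := {f | ∃ v, Rep z zi f v}) (isClosed_rep D)
    (fun _ ⟨_, h1⟩ _ ⟨_, h2⟩ => ⟨_, h1.add h2⟩) (fun c _ ⟨_, h1⟩ => ⟨_, h1.smul c⟩)
    (fun _ ⟨_, h1⟩ _ ⟨_, h2⟩ => ⟨_, h1.sup h2⟩) (fun _ ⟨_, h1⟩ _ ⟨_, h2⟩ => ⟨_, h1.inf h2⟩)
    ⟨_, rep_one D⟩ (fun i => ⟨_, rep_x D i⟩) f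

/-- the functional calculus -/
noncomputable def fcal [CompleteSpace Z] (D : Dt2 z zi) : C(Om I, ℝ) →ₗ[ℝ] Z where
  toFun f := (exists_rep D f).choose
  map_add' f g := (exists_rep D (f + g)).choose_spec.unique D
    ((exists_rep D f).choose_spec.add (exists_rep D g).choose_spec)
  map_smul' c f := (exists_rep D (c • f)).choose_spec.unique D
    ((exists_rep D f).choose_spec.smul c)

variable [CompleteSpace Z] (D : Dt2 z zi)

lemma fcal_rep (f : C(Om I, ℝ)) : Rep z zi f (fcal D f) := (exists_rep D f).choose_spec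

lemma fcal_one : fcal D 1 = z := (fcal_rep D 1).unique D (rep_one D)
lemma fcal_x (i : I) : fcal D (xc i) = zi i := (fcal_rep D _).unique D (rep_x D i)
lemma fcal_sup (f g : C(Om I, ℝ)) : fcal D (f ⊔ g) = fcal D f ⊔ fcal D g :=
  (fcal_rep D _).unique D ((fcal_rep D f).sup (fcal_rep D g))
lemma fcal_inf (f g : C(Om I, ℝ)) : fcal D (f ⊓ g) = fcal D f ⊓ fcal D g :=
  (fcal_rep D _).unique D ((fcal_rep D f).inf (fcal_rep D g))

end Rep

end Q96.FT
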