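import Mathlib

/-!
Projective Banach lattices, topological order units and the Fremlin tensor product.
-/

set_option autoImplicit false

namespace Q96.FT

universe u v w

/-- `T` is a lattice homomorphism. -/
def IsLatHom {X : Type u} {Y : Type v} [NormedAddCommGroup X] [NormedSpace ℝ X] [Lattice X]
    [NormedAddCommGroup Y] [NormedSpace ℝ Y] [Lattice Y] (T : X →L[ℝ] Y) : Prop :=
  ∀ x y, T (x ⊔ y) = T x ⊔ T y ∧ T (x ⊓ y) = T x ⊓ T y

/-- `Q` is, up to isometric lattice isomorphism, the quotient map of `X` modulo the closed ideal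
`ker Q`: a surjective lattice homomorphism for which the norm of `Y` is the quotient norm. -/
structure IsLatQuotient {X : Type u} {Y : Type v} [NormedAddCommGroup X] [NormedSpace ℝ X]
    [Lattice X] [NormedAddCommGroup Y] [NormedSpace ℝ Y] [Lattice Y] (Q : X →L[ℝ] Y) : Prop where
  surj : Function.Surjective Q
  lat : IsLatHom Q
  norm : ∀ y, IsGLB {r : ℝ | ∃ x, Q x = y ∧ r = ‖x‖} ‖y‖

/-- `P` is a projective Banach lattice (isometric notion), the test spaces ranging over the
universe `u`: lattice homomorphisms of `P` into a lattice quotient `Z` of a Banach lattice `X`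
lift to `X`, with the norm increased by at most the factor `1 + ε`. -/
def IsProjective (P : Type) [NormedAddCommGroup P] [NormedSpace ℝ P] [Lattice P] : Prop :=
  ∀ (X Z : Type u) [NormedAddCommGroup X] [NormedSpace ℝ X] [CompleteSpace X] [Lattice X]
    [IsOrderedAddMonoid X] [IsOrderedModule ℝ X] [HasSolidNorm X]
    [NormedAddCommGroup Z] [NormedSpace ℝ Z] [CompleteSpace Z] [Lattice Z] [IsOrderedAddMonoid Z]
    [IsOrderedModule ℝ Z] [HasSolidNorm Z] (Q : X →L[ℝ] Z), IsLatQuotient Q →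
    ∀ T : P →L[ℝ] Z, IsLatHom T → ∀ ε : ℝ, 0 < ε →
      ∃ T' : P →L[ℝ] X, IsLatHom T' ∧ Q.comp T' = T ∧ ‖T'‖ ≤ (1 + ε) * ‖T‖

/-- `e` is a topological order unit: `e ≥ 0` and the only closed ideal containing `e` is the
whole space. -/
def IsTopOrderUnit {E : Type} [NormedAddCommGroup E] [NormedSpace ℝ E] [Lattice E] (e : E) : Prop :=
  0 ≤ e ∧ ∀ J : Submodule ℝ E, IsClosed (J : Set E) → (∀ x y : E, |x| ≤ |y| → y ∈ J → x ∈ J) →
    e ∈ J → J = ⊤

/-- a bounded bilinear map is positive -/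
def IsPosBilin {X Y : Type} {Z : Type u} [NormedAddCommGroup X] [NormedSpace ℝ X] [Lattice X]
    [NormedAddCommGroup Y] [NormedSpace ℝ Y] [Lattice Y]
    [NormedAddCommGroup Z] [NormedSpace ℝ Z] [Lattice Z] (φ : X →L[ℝ] Y →L[ℝ] Z) : Prop :=
  ∀ x y, 0 ≤ x → 0 ≤ y → 0 ≤ φ x y

/-- a bounded linear map is positive -/
def IsPos {X : Type} {Z : Type u} [NormedAddCommGroup X] [NormedSpace ℝ X] [Lattice X]
    [NormedAddCommGroup Z] [NormedSpace ℝ Z] [Lattice Z] (T : X →L[ℝ] Z) : Prop :=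
  ∀ x, 0 ≤ x → 0 ≤ T x

/-- The Banach lattice `W` with the positive bilinear map `B` is the Fremlin tensor product of
`X` and `Y`, by its universal property, the test spaces ranging over the universe `u`: every
bounded positive bilinear map `φ : X × Y → Z` into a Banach lattice is `T ∘ B` for a unique
bounded positive linear map `T : W → Z`, and `‖T‖ = ‖φ‖`. -/
structure IsFremlin (X Y W : Type) [NormedAddCommGroup X] [NormedSpace ℝ X] [Lattice X]
    [NormedAddCommGroup Y] [NormedSpace ℝ Y] [Lattice Y]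
    [NormedAddCommGroup W] [NormedSpace ℝ W] [Lattice W] (B : X →L[ℝ] Y →L[ℝ] W) : Prop where
  pos : IsPosBilin B
  univ : ∀ (Z : Type u) [NormedAddCommGroup Z] [NormedSpace ℝ Z] [CompleteSpace Z] [Lattice Z]
    [IsOrderedAddMonoid Z] [IsOrderedModule ℝ Z] [HasSolidNorm Z] (φ : X →L[ℝ] Y →L[ℝ] Z),
    IsPosBilin φ →
      ∃ T : W →L[ℝ] Z, (IsPos T ∧ (∀ x y, T (B x y) = φ x y) ∧ ‖T‖ = ‖φ‖) ∧
        ∀ T' : W →L[ℝ] Z, IsPos T' → (∀ x y, T' (B x y) = φ x y) → T' = T

end Q96.FT
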