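import Pool.Agent.Q96.FT.Proj

/-!
`C([0,2]^I × [0,2]^I)` with the norm generated by the products of the generators is the Fremlin
tensor product of `X` with itself.
-/

set_option autoImplicit false
set_option linter.unusedSectionVars false
set_option linter.unusedVariables false

namespace Q96.FT

open Filter Topology NNReal TensorProduct

universe u v

/-- finite partitions of unity -/
lemma exists_partition {K : Type} [TopologicalSpace K] [CompactSpace K] [T2Space K] {E : Type}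
    [NormedAddCommGroup E] [NormedSpace ℝ E] (x : K → E) (hx : Continuous x) {ε : ℝ}
    (hε : 0 < ε) : ∃ (ι : Type) (_ : Fintype ι) (h : ι → C(K, ℝ)) (p : ι → K),
      (∀ k ω, 0 ≤ h k ω) ∧ ∀ ω, ‖x ω - ∑ k, h k ω • x (p k)‖ ≤ ε := by
  classical
  have hU : ∀ p : K, IsOpen {ω | ‖x ω - x p‖ < ε} := fun p =>
    isOpen_lt (hx.sub continuous_const).norm continuous_const
  obtain ⟨t, -, ht⟩ := (isCompact_univ : IsCompact (Set.univ : Set K)).elim_nhds_subcover
    (fun p => {ω | ‖x ω - x p‖ < ε}) (fun p _ => (hU p).mem_nhds (by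
      show ‖x p - x p‖ < ε
      rw [sub_self, norm_zero]; exact hε))
  obtain ⟨f, hf⟩ := PartitionOfUnity.exists_isSubordinate (isClosed_univ : IsClosed (Set.univ : Set K))
    (fun k : {p // p ∈ t} => {ω | ‖x ω - x k.1‖ < ε}) (fun k => hU k.1) (by
      intro ω hω
      obtain ⟨p, hp, hωp⟩ := Set.mem_iUnion₂.1 (ht hω)
      exact Set.mem_iUnion.2 ⟨⟨p, hp⟩, hωp⟩)
  refine ⟨{p // p ∈ t}, inferInstance, fun k => f k, fun k => k.1, fun k ω => f.nonneg k ω,
    fun ω => ?_⟩
  have h1 : ∑ k, f k ω = 1 := by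
    rw [← finsum_eq_sum_of_fintype]
    exact f.sum_eq_one (Set.mem_univ ω)
  have h2 : x ω - ∑ k, f k ω • x k.1 = ∑ k, f k ω • (x ω - x k.1) := by
    simp_rw [smul_sub]
    rw [Finset.sum_sub_distrib, ← Finset.sum_smul, h1, one_smul]
  rw [h2]
  refine (norm_sum_le _ _).trans ?_
  have h3 : ∀ k, ‖f k ω • (x ω - x k.1)‖ ≤ f k ω * ε := by
    intro k
    rw [norm_smul, Real.norm_of_nonneg (f.nonneg k ω)]
    by_cases h0 : f k ω = 0
    · rw [h0, zero_mul, zero_mul]
    · refine mul_le_mul_of_nonneg_left ?_ (f.nonneg k ω)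
      have h4 : ω ∈ tsupport (f k) := subset_tsupport _ h0
      exact (show ‖x ω - x k.1‖ < ε from hf k h4).le
  refine (Finset.sum_le_sum fun k _ => h3 k).trans ?_
  rw [← Finset.sum_mul, h1, one_mul]

variable (I : Type)

variable {I} in
/-- the tensor product of functions -/
noncomputable def tens (f g : C(Om I, ℝ)) : C(Om I × Om I, ℝ) :=
  ⟨fun p => f p.1 * g p.2, by fun_prop⟩

variable {I} in
@[simp] lemma tens_apply (f g : C(Om I, ℝ)) (p : Om I × Om I) : tens f g p = f p.1 * g p.2 := rfl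

/-- the generating family of the square of the cube -/
noncomputable def genW : Gen (Om I × Om I) where
  A := Option I × Option I
  g a := tens (gfun I a.1) (gfun I a.2)
  nonneg a x := mul_nonneg (gfun_nonneg _ _) (gfun_nonneg _ _)
  C := 4
  le a x := by
    have h1 := gfun_le a.1 x.1
    have h2 := gfun_le a.2 x.2
    have h3 := gfun_nonneg a.1 x.1
    have h4 := gfun_nonneg a.2 x.2
    show gfun I a.1 x.1 * gfun I a.2 x.2 ≤ 4
    nlinarith
  a0 := (none, none)
  one _ := by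
    show (1 : ℝ) * 1 = 1
    norm_num

/-- the Banach lattice `W` -/
abbrev WI : Type := RL (genW I)

variable {I}

lemma dom_mul (c d : Option I →₀ ℝ≥0) : ∃ e : Option I × Option I →₀ ℝ≥0,
    (∀ p : Om I × Om I, (genW I).dom e p = (genX I).dom c p.1 * (genX I).dom d p.2) ∧
    (genW I).tot e = (genX I).tot c * (genX I).tot d := by
  classical
  induction c using Finsupp.induction_linear with
  | zero => exact ⟨0, fun p => (Gen.dom_zero (G := genW I) p).trans
      ((congrArg (· * (genX I).dom d p.2) (Gen.dom_zero (G := genX I) p.1)).trans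
        (zero_mul _)).symm,
      (Gen.tot_zero (G := genW I)).trans
      ((congrArg (· * (genX I).tot d) (Gen.tot_zero (G := genX I))).trans (zero_mul _)).symm⟩
  | add c c' h h' =>
    obtain ⟨e, he, het⟩ := h
    obtain ⟨e', he', het'⟩ := h'
    refine ⟨e + e', fun p => ?_, ?_⟩
    · have h1 := Gen.dom_add (G := genW I) e e' p
      have h2 := Gen.dom_add (G := genX I) c c' p.1
      have h3 := he p
      have h4 := he' p
      refine h1.trans ?_
      refine Eq.trans ?_ (congrArg (· * (genX I).dom d p.2) h2.symm)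
      show (genW I).dom e p + (genW I).dom e' p = _
      rw [h3, h4]
      ring
    · have h1 := Gen.tot_add (G := genW I) e e'
      have h2 := Gen.tot_add (G := genX I) c c'
      refine h1.trans ?_
      refine Eq.trans ?_ (congrArg (· * (genX I).tot d) h2.symm)
      show (genW I).tot e + (genW I).tot e' = _
      rw [het, het']
      ring
  | single a t =>
    induction d using Finsupp.induction_linear with
    | zero => exact ⟨0, fun p => (Gen.dom_zero (G := genW I) p).trans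
        ((congrArg ((genX I).dom (Finsupp.single a t) p.1 * ·)
          (Gen.dom_zero (G := genX I) p.2)).trans (mul_zero _)).symm,
        (Gen.tot_zero (G := genW I)).trans
        ((congrArg ((genX I).tot (Finsupp.single a t) * ·)
          (Gen.tot_zero (G := genX I))).trans (mul_zero _)).symm⟩
    | add d d' h h' =>
      obtain ⟨e, he, het⟩ := h
      obtain ⟨e', he', het'⟩ := h'
      refine ⟨e + e', fun p => ?_, ?_⟩
      · have h1 := Gen.dom_add (G := genW I) e e' p
        have h2 := Gen.dom_add (G := genX I) d d' p.2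
        have h3 := he p
        have h4 := he' p
        refine h1.trans ?_
        refine Eq.trans ?_ (congrArg ((genX I).dom (Finsupp.single a t) p.1 * ·) h2.symm)
        show (genW I).dom e p + (genW I).dom e' p = _
        rw [h3, h4]
        exact (mul_add _ _ _).symm
      · have h1 := Gen.tot_add (G := genW I) e e'
        have h2 := Gen.tot_add (G := genX I) d d'
        refine h1.trans ?_
        refine Eq.trans ?_ (congrArg ((genX I).tot (Finsupp.single a t) * ·) h2.symm)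
        show (genW I).tot e + (genW I).tot e' = _
        rw [het, het']
        exact (mul_add _ _ _).symm
    | single b s =>
      refine ⟨Finsupp.single (a, b) (t * s), fun p => ?_, ?_⟩
      · have h1 := Gen.dom_single (G := genW I) (a, b) (t * s) p
        have h2 := Gen.dom_single (G := genX I) a t p.1
        have h3 := Gen.dom_single (G := genX I) b s p.2
        refine h1.trans ?_
        refine Eq.trans ?_ (congrArg₂ (· * ·) h2.symm h3.symm)
        show ((t * s : ℝ≥0) : ℝ) * (gfun I a p.1 * gfun I b p.2) =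
          ((t : ℝ) * gfun I a p.1) * (s * gfun I b p.2)
        push_cast
        ring
      · have h1 := Gen.tot_single (G := genW I) (a, b) (t * s)
        have h2 := Gen.tot_single (G := genX I) a t
        have h3 := Gen.tot_single (G := genX I) b s
        refine h1.trans ?_
        refine Eq.trans ?_ (congrArg₂ (· * ·) h2.symm h3.symm)
        push_cast
        rfl

lemma norm_tens_le (f g : XI I) :
    ‖(RL.mk (tens (RL.un f) (RL.un g)) : WI I)‖ ≤ ‖f‖ * ‖g‖ := by
  have key : ∀ r s, ‖f‖ < r → ‖g‖ < s → ‖(RL.mk (tens (RL.un f) (RL.un g)) : WI I)‖ ≤ r * s := by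
    intro r s hr hs
    obtain ⟨c, hc, hcr⟩ := RL.exists_lt hr
    obtain ⟨d, hd, hds⟩ := RL.exists_lt hs
    obtain ⟨e, he, het⟩ := dom_mul c d
    have h1 := RL.norm_le_of (f := (RL.mk (tens (RL.un f) (RL.un g)) : WI I)) e fun p => by
      refine le_trans ?_ (he p).ge
      show |f p.1 * g p.2| ≤ _
      rw [abs_mul]
      exact mul_le_mul (hc p.1) (hd p.2) (abs_nonneg _) ((abs_nonneg _).trans (hc p.1))
    refine h1.trans (het.le.trans ?_)
    exact mul_le_mul hcr.le hds.le (Gen.tot_nonneg d) ((Gen.tot_nonneg c).trans hcr.le)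
  have h5 : Tendsto (fun n : ℕ => (‖f‖ + 1 / ((n : ℝ) + 1)) * (‖g‖ + 1 / ((n : ℝ) + 1))) atTop
      (𝓝 ((‖f‖ + 0) * (‖g‖ + 0))) :=
    (tendsto_const_nhds.add tendsto_one_div_add_atTop_nhds_zero_nat).mul
      (tendsto_const_nhds.add tendsto_one_div_add_atTop_nhds_zero_nat)
  rw [add_zero, add_zero] at h5
  refine ge_of_tendsto' h5 fun n => ?_
  have : (0 : ℝ) < 1 / ((n : ℝ) + 1) := by positivity
  exact key _ _ (by linarith) (by linarith)

/-- the bilinear map `(f, g) ↦ f ⊗ g` -/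
noncomputable def Bil : XI I →L[ℝ] XI I →L[ℝ] WI I :=
  LinearMap.mkContinuous₂ (LinearMap.mk₂ ℝ
    (fun f g => (RL.mk (tens (RL.un f) (RL.un g)) : WI I))
    (fun f f' g => RL.ext fun p => add_mul _ _ _)
    (fun c f g => RL.ext fun p => mul_assoc _ _ _)
    (fun f g g' => RL.ext fun p => mul_add _ _ _)
    (fun c f g => RL.ext fun p => mul_left_comm _ _ _)) 1
    (fun f g => by rw [one_mul]; exact norm_tens_le f g)

@[simp] lemma Bil_apply (f g : XI I) (p : Om I × Om I) : Bil f g p = f p.1 * g p.2 := rfl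

lemma norm_Bil_le (f g : XI I) : ‖Bil f g‖ ≤ ‖f‖ * ‖g‖ := norm_tens_le f g

/-- the linear map on the algebraic tensor product -/
noncomputable def Lin : XI I ⊗[ℝ] XI I →ₗ[ℝ] WI I :=
  TensorProduct.lift (Bil (I := I)).toLinearMap₁₂

lemma Lin_tmul (f g : XI I) : Lin (f ⊗ₜ[ℝ] g) = Bil f g := rfl

lemma RL.sum_apply {K : Type} [TopologicalSpace K] [CompactSpace K] {G : Gen K} {ι : Type}
    (s : Finset ι) (F : ι → RL G) (x : K) : (∑ a ∈ s, F a) x = ∑ a ∈ s, F a x := by
  classical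
  induction s using Finset.induction_on with
  | empty => rfl
  | insert a s ha ih => rw [Finset.sum_insert ha, Finset.sum_insert ha, RL.add_apply, ih]

/-- positive approximation by simple tensors -/
lemma approx (F : C(Om I × Om I, ℝ)) {ε : ℝ} (hε : 0 < ε) :
    ∃ (ι : Type) (_ : Fintype ι) (h f : ι → XI I),
      (∀ k, 0 ≤ h k) ∧ ((∀ p, 0 ≤ F p) → ∀ k, 0 ≤ f k) ∧
      ‖(RL.mk F : WI I) - ∑ k, Bil (h k) (f k)‖ ≤ ε := by
  obtain ⟨ι, _, h, p, h0, happ⟩ := exists_partition (fun ω => F.curry ω) F.curry.continuous hε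
  refine ⟨ι, inferInstance, fun k => RL.mk (h k), fun k => RL.mk (F.curry (p k)),
    fun k ω => h0 k ω, fun hF k ω => hF (p k, ω), ?_⟩
  refine (RL.norm_le_sup (RL.un ((RL.mk F : WI I) - ∑ k, Bil (RL.mk (h k)) (RL.mk (F.curry (p k)))))).trans ?_
  rw [ContinuousMap.norm_le _ hε.le]
  rintro ⟨ω, ω'⟩
  have h1 := (ContinuousMap.norm_coe_le_norm _ ω').trans (happ ω)
  refine le_trans (le_of_eq ?_) h1
  congr 1
  rw [ContinuousMap.sub_apply, ContinuousMap.sum_apply]
  show F (ω, ω') - (∑ k, Bil (RL.mk (h k)) (RL.mk (F.curry (p k))) : WI I) (ω, ω') = _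
  rw [RL.sum_apply]
  rfl

lemma dense_Lin : DenseRange (Lin (I := I)) := by
  intro F
  rw [Metric.mem_closure_iff]
  intro ε hε
  obtain ⟨ι, _, h, f, -, -, happ⟩ := approx (RL.un F) (half_pos hε)
  refine ⟨_, ⟨∑ k, h k ⊗ₜ[ℝ] f k, rfl⟩, ?_⟩
  rw [map_sum, dist_eq_norm]
  refine lt_of_le_of_lt ?_ (half_lt_self hε)
  exact happ

section Univ

variable {Z : Type u} [NormedAddCommGroup Z] [NormedSpace ℝ Z] [CompleteSpace Z] [Lattice Z]
  [IsOrderedAddMonoid Z] [IsOrderedModule ℝ Z] [HasSolidNorm Z]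
  (φ : XI I →L[ℝ] XI I →L[ℝ] Z) (hφ : IsPosBilin φ)

include hφ in
lemma pos_sum (S : Finset (XI I × XI I))
    (hpos : ∀ ω ω' : Om I, 0 ≤ ∑ i ∈ S, i.1 ω * i.2 ω') : 0 ≤ ∑ i ∈ S, φ i.1 i.2 := by
  classical
  have key : ∀ n : ℕ, ∃ v : Z, 0 ≤ v ∧
      ‖v - ∑ i ∈ S, φ i.1 i.2‖ ≤ (1 / ((n : ℝ) + 1)) * ∑ i ∈ S, ‖φ‖ * ‖i.2‖ := by
    intro n
    have hε : (0 : ℝ) < 1 / ((n : ℝ) + 1) := by positivity
    obtain ⟨ι, _, h, p, h0, happ⟩ := exists_partition
      (fun (ω : Om I) (i : {i // i ∈ S}) => RL.un i.1.1 ω) (by fun_prop) hε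
    have hc : ∀ i ∈ S, ‖i.1 - ∑ k, (i.1 (p k)) • (RL.mk (h k) : XI I)‖ ≤ 1 / ((n : ℝ) + 1) := by
      intro i hi
      refine (RL.norm_le_sup (RL.un (i.1 - ∑ k, (i.1 (p k)) • (RL.mk (h k) : XI I)))).trans ?_
      rw [ContinuousMap.norm_le _ hε.le]
      intro ω
      have h1 := (norm_le_pi_norm _ (⟨i, hi⟩ : {i // i ∈ S})).trans (happ ω)
      refine le_trans (le_of_eq ?_) h1
      congr 1
      rw [Pi.sub_apply, Finset.sum_apply]
      show i.1 ω - (∑ k, (i.1 (p k)) • (RL.mk (h k) : XI I)) ω = _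
      rw [RL.sum_apply]
      congr 1
      refine Finset.sum_congr rfl fun k _ => ?_
      show i.1 (p k) * h k ω = h k ω * i.1 (p k)
      ring
    refine ⟨∑ i ∈ S, φ (∑ k, (i.1 (p k)) • (RL.mk (h k) : XI I)) i.2, ?_, ?_⟩
    · have h1 : ∑ i ∈ S, φ (∑ k, (i.1 (p k)) • (RL.mk (h k) : XI I)) i.2 =
          ∑ k, φ (RL.mk (h k)) (∑ i ∈ S, (i.1 (p k)) • i.2) := by
        simp only [map_sum, map_smul, _root_.sum_apply, _root_.smul_apply]
        rw [Finset.sum_comm]
      rw [h1]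
      refine Finset.sum_nonneg fun k _ => hφ _ _ (fun ω => h0 k ω) fun ω => ?_
      show 0 ≤ (∑ i ∈ S, (i.1 (p k)) • i.2) ω
      rw [RL.sum_apply]
      exact hpos (p k) ω
    · rw [← Finset.sum_sub_distrib, Finset.mul_sum]
      refine (norm_sum_le _ _).trans (Finset.sum_le_sum fun i hi => ?_)
      rw [← _root_.sub_apply, ← map_sub]
      refine (φ.le_opNorm₂ _ _).trans ?_
      rw [norm_sub_rev]
      have := hc i hi
      calc ‖φ‖ * ‖i.1 - ∑ k, (i.1 (p k)) • (RL.mk (h k) : XI I)‖ * ‖i.2‖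
          ≤ ‖φ‖ * (1 / ((n : ℝ) + 1)) * ‖i.2‖ := by gcongr
        _ = _ := by ring
  choose v hv0 hv using key
  have h1 : Tendsto (fun n : ℕ => (1 / ((n : ℝ) + 1)) * ∑ i ∈ S, ‖φ‖ * ‖i.2‖) atTop
      (𝓝 (0 * ∑ i ∈ S, ‖φ‖ * ‖i.2‖)) :=
    tendsto_one_div_add_atTop_nhds_zero_nat.mul_const _
  rw [zero_mul] at h1
  have h2 : Tendsto v atTop (𝓝 (∑ i ∈ S, φ i.1 i.2)) := by
    rw [tendsto_iff_norm_sub_tendsto_zero]
    exact squeeze_zero (fun _ => norm_nonneg _) hv h1
  exact ge_of_tendsto' h2 hv0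

/-- the linearisation -/
noncomputable def phiL : XI I ⊗[ℝ] XI I →ₗ[ℝ] Z := TensorProduct.lift φ.toLinearMap₁₂

lemma phiL_tmul (f g : XI I) : phiL φ (f ⊗ₜ[ℝ] g) = φ f g := rfl

include hφ in
lemma pos_phiL (t : XI I ⊗[ℝ] XI I) (h : ∀ p, 0 ≤ Lin t p) : 0 ≤ phiL φ t := by
  obtain ⟨S, rfl⟩ := TensorProduct.exists_finset t
  rw [map_sum]
  refine pos_sum φ hφ S fun ω ω' => ?_
  have := h (ω, ω')
  rw [map_sum, RL.sum_apply] at this
  exact this

include hφ in
lemma norm_phiL_le (t : XI I ⊗[ℝ] XI I) : ‖phiL φ t‖ ≤ ‖φ‖ * ‖Lin t‖ := by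
  have key : ∀ r, ‖Lin t‖ < r → ‖phiL φ t‖ ≤ ‖φ‖ * r := by
    intro r hr
    obtain ⟨e, he, hlt⟩ := RL.exists_lt hr
    let w : XI I ⊗[ℝ] XI I := ∑ a ∈ e.support, ((e a : ℝ≥0) : ℝ) •
      ((RL.mk (gfun I a.1) : XI I) ⊗ₜ[ℝ] (RL.mk (gfun I a.2) : XI I))
    have hw : ∀ p, Lin w p = (genW I).dom e p := by
      intro p
      show Lin (∑ a ∈ e.support, ((e a : ℝ≥0) : ℝ) •
        ((RL.mk (gfun I a.1) : XI I) ⊗ₜ[ℝ] (RL.mk (gfun I a.2) : XI I))) p = _
      rw [map_sum, RL.sum_apply]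
      unfold Gen.dom
      rw [Finsupp.sum]
      refine Finset.sum_congr rfl fun a _ => ?_
      rw [map_smul]
      rfl
    have h1 : 0 ≤ phiL φ w - phiL φ t := by
      rw [← map_sub]
      refine pos_phiL φ hφ _ fun p => ?_
      rw [map_sub, RL.sub_apply, hw, sub_nonneg]
      exact (le_abs_self _).trans (he p)
    have h2 : 0 ≤ phiL φ w + phiL φ t := by
      rw [← map_add]
      refine pos_phiL φ hφ _ fun p => ?_
      rw [map_add, RL.add_apply, hw]
      have := (neg_le_abs _).trans (he p)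
      linarith
    have h3 : |phiL φ t| ≤ phiL φ w :=
      sup_le (sub_nonneg.1 h1) (by rw [← sub_nonneg, sub_neg_eq_add]; exact h2)
    have h4 : ‖phiL φ t‖ ≤ ‖phiL φ w‖ := HasSolidNorm.solid (h3.trans (le_abs_self _))
    have h5 : ‖phiL φ w‖ ≤ ‖φ‖ * (genW I).tot e := by
      show ‖phiL φ (∑ a ∈ e.support, ((e a : ℝ≥0) : ℝ) •
        ((RL.mk (gfun I a.1) : XI I) ⊗ₜ[ℝ] (RL.mk (gfun I a.2) : XI I)))‖ ≤ _
      rw [map_sum]
      refine (norm_sum_le _ _).trans ?_
      unfold Gen.tot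
      rw [Finsupp.sum, Finset.mul_sum]
      refine Finset.sum_le_sum fun a _ => ?_
      rw [map_smul]
      have hn : ‖((e a : ℝ≥0) : ℝ)‖ = ((e a : ℝ≥0) : ℝ) := Real.norm_of_nonneg (e a).2
      have hb : ‖φ (RL.mk (gfun I a.1) : XI I) (RL.mk (gfun I a.2) : XI I)‖ ≤ ‖φ‖ := by
        refine (φ.le_opNorm₂ _ _).trans ?_
        have h6 := RL.norm_gen (G := genX I) a.1
        have h7 := RL.norm_gen (G := genX I) a.2
        calc ‖φ‖ * ‖(RL.mk (gfun I a.1) : XI I)‖ * ‖(RL.mk (gfun I a.2) : XI I)‖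
            ≤ ‖φ‖ * 1 * 1 := mul_le_mul (mul_le_mul_of_nonneg_left h6 (norm_nonneg φ)) h7
              (norm_nonneg _) (by positivity)
          _ = ‖φ‖ := by ring
      refine (norm_smul_le _ _).trans ?_
      rw [mul_comm]
      exact (mul_le_mul hb hn.le (norm_nonneg _) (norm_nonneg φ))
    exact h4.trans (h5.trans (mul_le_mul_of_nonneg_left hlt.le (norm_nonneg φ)))
  have h5 : Tendsto (fun n : ℕ => ‖φ‖ * (‖Lin t‖ + 1 / ((n : ℝ) + 1))) atTop
      (𝓝 (‖φ‖ * (‖Lin t‖ + 0))) :=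
    (tendsto_const_nhds.add tendsto_one_div_add_atTop_nhds_zero_nat).const_mul _
  rw [add_zero] at h5
  refine ge_of_tendsto' h5 fun n => key _ ?_
  have : (0 : ℝ) < 1 / ((n : ℝ) + 1) := by positivity
  linarith

end Univ

/-- **`W` is the Fremlin tensor product.** -/
theorem isFremlin (I : Type) : IsFremlin.{u} (XI I) (XI I) (WI I) Bil where
  pos f g hf hg p := mul_nonneg (hf p.1) (hg p.2)
  univ := by
    intro Z _ _ _ _ _ _ _ φ hφ
    have hb := norm_phiL_le φ hφ
    let T : WI I →L[ℝ] Z := (phiL φ).extendOfNorm (Lin (I := I))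
    have hT : ∀ t, T (Lin t) = phiL φ t := fun t =>
      LinearMap.extendOfNorm_eq dense_Lin ⟨_, hb⟩ t
    have hTB : ∀ f g, T (Bil f g) = φ f g := fun f g => hT (f ⊗ₜ[ℝ] g)
    refine ⟨T, ⟨?_, hTB, ?_⟩, ?_⟩
    · intro F hF
      have key : ∀ n : ℕ, ∃ G : WI I, 0 ≤ T G ∧ ‖F - G‖ ≤ 1 / ((n : ℝ) + 1) := by
        intro n
        obtain ⟨ι, _, h, f, h0, f0, happ⟩ := approx (RL.un F)
          (show (0 : ℝ) < 1 / ((n : ℝ) + 1) by positivity)
        refine ⟨∑ k, Bil (h k) (f k), ?_, happ⟩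
        rw [map_sum]
        exact Finset.sum_nonneg fun k _ => by
          rw [hTB]; exact hφ _ _ (h0 k) (f0 (fun p => hF p) k)
      choose G hG0 hG using key
      have h1 : Tendsto G atTop (𝓝 F) := by
        rw [tendsto_iff_norm_sub_tendsto_zero]
        refine squeeze_zero (fun _ => norm_nonneg _) (fun n => ?_)
          tendsto_one_div_add_atTop_nhds_zero_nat
        rw [norm_sub_rev]; exact hG n
      exact ge_of_tendsto' ((T.continuous.tendsto F).comp h1) hG0
    · apply le_antisymm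
      · exact ContinuousLinearMap.opNorm_le_bound _ (norm_nonneg φ)
          (LinearMap.norm_extendOfNorm_apply_le dense_Lin _ hb)
      · refine φ.opNorm_le_bound₂ (norm_nonneg _) fun f g => ?_
        rw [← hTB, mul_assoc]
        exact (T.le_opNorm _).trans (mul_le_mul_of_nonneg_left (norm_Bil_le f g) (norm_nonneg _))
    · intro T' _ hT'
      have h1 : (T' : WI I → Z) = T := by
        refine dense_Lin.equalizer T'.continuous T.continuous (funext fun t => ?_)
        show T' (Lin t) = T (Lin t)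
        obtain ⟨S, rfl⟩ := TensorProduct.exists_finset t
        rw [map_sum, map_sum, map_sum]
        refine Finset.sum_congr rfl fun i _ => ?_
        rw [Lin_tmul, hT', hTB]
      exact DFunLike.coe_injective h1

end Q96.FT
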