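import Mathlib

/-!
Real lattice homomorphisms on principal ideals of a Banach lattice.
-/

set_option autoImplicit false
set_option linter.unusedSectionVars false
set_option linter.unusedVariables false

namespace Q96.FT

open Filter Topology

universe v

variable {Z : Type v} [NormedAddCommGroup Z] [NormedSpace ℝ Z] [Lattice Z]
  [IsOrderedAddMonoid Z] [IsOrderedModule ℝ Z] [HasSolidNorm Z]

/-- membership in the ideal generated by `z` -/
def Bd (z v : Z) : Prop := ∃ C : ℝ, |v| ≤ C • z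

/-- a real lattice homomorphism on the ideal generated by `z`, normalised at `z` -/
structure IsReal (z : Z) (φ : Z → ℝ) : Prop where
  add : ∀ v w, Bd z v → Bd z w → φ (v + w) = φ v + φ w
  smul : ∀ (c : ℝ) v, Bd z v → φ (c • v) = c * φ v
  sup : ∀ v w, Bd z v → Bd z w → φ (v ⊔ w) = max (φ v) (φ w)
  one : φ z = 1

section Ideal

/-- solid subspaces -/
def Solid (M : Submodule ℝ Z) : Prop := ∀ x y : Z, |x| ≤ |y| → y ∈ M → x ∈ M

lemma abs_smul'' (c : ℝ) (x : Z) : |c • x| = |c| • |x| := by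
  rcases le_total 0 c with h | h
  · rw [abs_of_nonneg h]
    show (c • x) ⊔ -(c • x) = c • (x ⊔ -x)
    rcases h.eq_or_lt with h | h
    · rw [← h]; simp
    · apply le_antisymm
      · refine sup_le (smul_le_smul_of_nonneg_left le_sup_left h.le) ?_
        rw [← smul_neg]
        exact smul_le_smul_of_nonneg_left le_sup_right h.le
      · have h1 : x ⊔ -x ≤ c⁻¹ • ((c • x) ⊔ -(c • x)) := by
          refine sup_le ?_ ?_
          · have := smul_le_smul_of_nonneg_left (le_sup_left : c • x ≤ (c • x) ⊔ -(c • x))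
              (inv_nonneg.2 h.le)
            rwa [smul_smul, inv_mul_cancel₀ h.ne', one_smul] at this
          · have := smul_le_smul_of_nonneg_left (le_sup_right : -(c • x) ≤ (c • x) ⊔ -(c • x))
              (inv_nonneg.2 h.le)
            rwa [smul_neg, smul_smul, inv_mul_cancel₀ h.ne', one_smul] at this
        have h2 := smul_le_smul_of_nonneg_left h1 h.le
        rwa [smul_smul, mul_inv_cancel₀ h.ne', one_smul] at h2
  · rw [abs_of_nonpos h]
    have h' : 0 ≤ -c := neg_nonneg.2 h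
    have e : c • x = -((-c) • x) := by rw [neg_smul, neg_neg]
    rw [e, abs_neg]
    show ((-c) • x) ⊔ -((-c) • x) = (-c) • (x ⊔ -x)
    rcases h'.eq_or_lt with h | h
    · rw [← h]; simp
    · apply le_antisymm
      · refine sup_le (smul_le_smul_of_nonneg_left le_sup_left h.le) ?_
        rw [← smul_neg]
        exact smul_le_smul_of_nonneg_left le_sup_right h.le
      · have h1 : x ⊔ -x ≤ (-c)⁻¹ • (((-c) • x) ⊔ -((-c) • x)) := by
          refine sup_le ?_ ?_
          · have := smul_le_smul_of_nonneg_left (le_sup_left : (-c) • x ≤ ((-c) • x) ⊔ -((-c) • x))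
              (inv_nonneg.2 h.le)
            rwa [smul_smul, inv_mul_cancel₀ h.ne', one_smul] at this
          · have := smul_le_smul_of_nonneg_left (le_sup_right : -((-c) • x) ≤ ((-c) • x) ⊔ -((-c) • x))
              (inv_nonneg.2 h.le)
            rwa [smul_neg, smul_smul, inv_mul_cancel₀ h.ne', one_smul] at this
        have h2 := smul_le_smul_of_nonneg_left h1 h.le
        rwa [smul_smul, mul_inv_cancel₀ h.ne', one_smul] at h2

lemma Bd.add {z v w : Z} (hv : Bd z v) (hw : Bd z w) : Bd z (v + w) := by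
  obtain ⟨C, hC⟩ := hv
  obtain ⟨C', hC'⟩ := hw
  exact ⟨C + C', (abs_add_le v w).trans (by rw [add_smul]; exact add_le_add hC hC')⟩

lemma Bd.smul {z v : Z} (c : ℝ) (hv : Bd z v) : Bd z (c • v) := by
  obtain ⟨C, hC⟩ := hv
  refine ⟨|c| * C, ?_⟩
  rw [abs_smul'', mul_smul]
  exact smul_le_smul_of_nonneg_left hC (abs_nonneg c)

lemma Bd.neg {z v : Z} (hv : Bd z v) : Bd z (-v) := by
  obtain ⟨C, hC⟩ := hv
  exact ⟨C, by rwa [abs_neg]⟩

lemma Bd.self {z : Z} (hz : 0 ≤ z) : Bd z z := ⟨1, by rw [one_smul, abs_of_nonneg hz]⟩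

lemma Bd.zero (z : Z) : Bd z 0 := ⟨0, by rw [abs_zero, zero_smul]⟩

lemma Bd.mono {z v w : Z} (hw : Bd z w) (h : |v| ≤ |w|) : Bd z v := by
  obtain ⟨C, hC⟩ := hw
  exact ⟨C, h.trans hC⟩

lemma Bd.sub {z v w : Z} (hv : Bd z v) (hw : Bd z w) : Bd z (v - w) := by
  rw [sub_eq_add_neg]; exact hv.add hw.neg

lemma Bd.abs {z v : Z} (hv : Bd z v) : Bd z |v| := hv.mono (by rw [abs_abs])

lemma sup_eq (v w : Z) : v ⊔ w = (1 / 2 : ℝ) • (v + w + |v - w|) := by
  rw [sup_eq_half_smul_add_add_abs_sub' ℝ v w, abs_sub_comm]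
  norm_num

lemma inf_eq (v w : Z) : v ⊓ w = (1 / 2 : ℝ) • (v + w - |v - w|) := by
  rw [inf_eq_half_smul_add_sub_abs_sub' ℝ v w, abs_sub_comm]
  norm_num

lemma Bd.sup {z v w : Z} (hv : Bd z v) (hw : Bd z w) : Bd z (v ⊔ w) := by
  rw [sup_eq]
  exact (((hv.add hw).add (hv.sub hw).abs)).smul _

/-- existence of a maximal solid subspace avoiding `y` -/
lemma exists_maximal {y : Z} (hy : y ≠ 0) :
    ∃ M : Submodule ℝ Z, Solid M ∧ y ∉ M ∧ ∀ M' : Submodule ℝ Z, Solid M' → y ∉ M' → M ≤ M' →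
      M' = M := by
  let S : Set (Submodule ℝ Z) := {M | Solid M ∧ y ∉ M}
  have hbot : (⊥ : Submodule ℝ Z) ∈ S := by
    refine ⟨fun x w h hw => ?_, fun h => hy h⟩
    have hw' : w = 0 := hw
    rw [hw', abs_zero] at h
    have : |x| = 0 := le_antisymm h (abs_nonneg x)
    show x = 0
    refine le_antisymm ((le_abs_self x).trans this.le) ?_
    have h2 := (neg_le_abs x).trans this.le
    exact neg_nonpos.1 h2
  obtain ⟨M, -, hM⟩ := zorn_le_nonempty₀ S (fun c hc hchain M0 hM0 => by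
    refine ⟨sSup c, ⟨?_, ?_⟩, fun N hN => le_sSup hN⟩
    · intro x w h hw
      rw [Submodule.mem_sSup_of_directed ⟨M0, hM0⟩ hchain.directedOn] at hw ⊢
      obtain ⟨N, hN, hwN⟩ := hw
      exact ⟨N, hN, (hc hN).1 x w h hwN⟩
    · intro h
      rw [Submodule.mem_sSup_of_directed ⟨M0, hM0⟩ hchain.directedOn] at h
      obtain ⟨N, hN, hyN⟩ := h
      exact (hc hN).2 hyN) ⊥ hbot
  refine ⟨M, hM.1.1, hM.1.2, fun M' h1 h2 h3 => le_antisymm (hM.2 ⟨h1, h2⟩ h3) h3⟩

/-- the solid subspace generated by `M` and `a` -/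
def gen (M : Submodule ℝ Z) (hM : Solid M) (a : Z) (ha : 0 ≤ a) : Submodule ℝ Z where
  carrier := {v | ∃ m ∈ M, 0 ≤ m ∧ ∃ k : ℝ, 0 ≤ k ∧ |v| ≤ m + k • a}
  add_mem' := by
    rintro v w ⟨m, hm, hm0, k, hk, h⟩ ⟨m', hm', hm0', k', hk', h'⟩
    refine ⟨m + m', M.add_mem hm hm', add_nonneg hm0 hm0', k + k', add_nonneg hk hk', ?_⟩
    calc |v + w| ≤ |v| + |w| := abs_add_le v w
      _ ≤ (m + k • a) + (m' + k' • a) := add_le_add h h'
      _ = m + m' + (k + k') • a := by rw [add_smul]; abel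
  zero_mem' := ⟨0, M.zero_mem, le_rfl, 0, le_rfl, by simp⟩
  smul_mem' := by
    rintro c v ⟨m, hm, hm0, k, hk, h⟩
    refine ⟨|c| • m, M.smul_mem _ hm, smul_nonneg (abs_nonneg c) hm0, |c| * k,
      mul_nonneg (abs_nonneg c) hk, ?_⟩
    rw [abs_smul'', mul_smul, ← smul_add]
    exact smul_le_smul_of_nonneg_left h (abs_nonneg c)

lemma gen_solid (M : Submodule ℝ Z) (hM : Solid M) (a : Z) (ha : 0 ≤ a) :
    Solid (gen M hM a ha) := by
  rintro x w h ⟨m, hm, hm0, k, hk, h'⟩
  exact ⟨m, hm, hm0, k, hk, h.trans h'⟩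

lemma le_gen (M : Submodule ℝ Z) (hM : Solid M) (a : Z) (ha : 0 ≤ a) : M ≤ gen M hM a ha := by
  intro v hv
  exact ⟨|v|, hM _ _ (by rw [abs_abs]) hv, abs_nonneg v, 0, le_rfl, by simp⟩

lemma mem_gen (M : Submodule ℝ Z) (hM : Solid M) (a : Z) (ha : 0 ≤ a) : a ∈ gen M hM a ha :=
  ⟨0, M.zero_mem, le_rfl, 1, zero_le_one, by rw [abs_of_nonneg ha]; simp⟩

lemma inf_smul {a b : Z} (h : a ⊓ b = 0) (k : ℝ) (hk : 0 ≤ k) : (k • a) ⊓ (k • b) = 0 := by
  rcases hk.eq_or_lt with h0 | h0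
  · rw [← h0]; simp
  · apply le_antisymm
    · have h1 : k⁻¹ • ((k • a) ⊓ (k • b)) ≤ a ⊓ b := by
        refine le_inf ?_ ?_
        · have := smul_le_smul_of_nonneg_left (inf_le_left : (k • a) ⊓ (k • b) ≤ k • a)
            (inv_nonneg.2 hk)
          rwa [smul_smul k⁻¹ k a, inv_mul_cancel₀ h0.ne', one_smul] at this
        · have := smul_le_smul_of_nonneg_left (inf_le_right : (k • a) ⊓ (k • b) ≤ k • b)
            (inv_nonneg.2 hk)
          rwa [smul_smul k⁻¹ k b, inv_mul_cancel₀ h0.ne', one_smul] at this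
      rw [h] at h1
      have h2 := smul_le_smul_of_nonneg_left h1 hk
      rwa [smul_smul, mul_inv_cancel₀ h0.ne', one_smul, smul_zero] at h2
    · have ha : 0 ≤ a := h ▸ inf_le_left
      have hb : 0 ≤ b := h ▸ inf_le_right
      exact le_inf (smul_nonneg hk ha) (smul_nonneg hk hb)

/-- maximal solid subspaces avoiding `y` are prime -/
lemma prime {y : Z} (hy0 : 0 ≤ y) {M : Submodule ℝ Z} (hM : Solid M) (hy : y ∉ M)
    (hmax : ∀ M' : Submodule ℝ Z, Solid M' → y ∉ M' → M ≤ M' → M' = M) (v : Z) :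
    v ⊔ 0 ∈ M ∨ -v ⊔ 0 ∈ M := by
  by_contra hcon
  push Not at hcon
  obtain ⟨h1, h2⟩ := hcon
  have hab : (v ⊔ 0) ⊓ (-v ⊔ 0) = 0 := posPart_inf_negPart_eq_zero v
  have key : ∀ a : Z, ∀ ha : 0 ≤ a, a ∉ M → y ∈ gen M hM a ha := by
    intro a ha haM
    by_contra h
    have := hmax _ (gen_solid M hM a ha) h (le_gen M hM a ha)
    exact haM (this ▸ mem_gen M hM a ha)
  obtain ⟨m, hm, hm0, k, hk, hy1⟩ := key _ le_sup_right h1
  obtain ⟨m', hm', hm0', k', hk', hy2⟩ := key _ le_sup_right h2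
  rw [abs_of_nonneg hy0] at hy1 hy2
  set K := max k k' with hK
  have hK0 : 0 ≤ K := hk.trans (le_max_left _ _)
  have g1 : y - (m + m') ≤ K • (v ⊔ 0) := by
    rw [sub_le_iff_le_add]
    calc y ≤ m + k • (v ⊔ 0) := hy1
      _ ≤ (m + m') + K • (v ⊔ 0) := add_le_add (le_add_of_nonneg_right hm0')
          (smul_le_smul_of_nonneg_right (le_max_left _ _) le_sup_right)
      _ = _ := add_comm _ _
  have g2 : y - (m + m') ≤ K • (-v ⊔ 0) := by
    rw [sub_le_iff_le_add]
    calc y ≤ m' + k' • (-v ⊔ 0) := hy2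
      _ ≤ (m + m') + K • (-v ⊔ 0) := add_le_add (le_add_of_nonneg_left hm0)
          (smul_le_smul_of_nonneg_right (le_max_right _ _) le_sup_right)
      _ = _ := add_comm _ _
  have g3 : y - (m + m') ≤ 0 := by
    have := le_inf g1 g2
    rwa [inf_smul hab K hK0] at this
  have g4 : y ≤ m + m' := sub_nonpos.1 g3
  refine hy (hM y (m + m') ?_ (M.add_mem hm hm'))
  rw [abs_of_nonneg hy0, abs_of_nonneg (add_nonneg hm0 hm0')]
  exact g4

end Ideal

/-! ### The real homomorphism -/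

section Hom

variable {z y : Z} {M : Submodule ℝ Z}

/-- the levels above `v` -/
def Lev (z : Z) (M : Submodule ℝ Z) (v : Z) : Set ℝ := {r | (v - r • z) ⊔ 0 ∈ M}

/-- the real value -/
noncomputable def val (z : Z) (M : Submodule ℝ Z) (v : Z) : ℝ := sInf (Lev z M v)

/-- data -/
structure Dat (z : Z) (M : Submodule ℝ Z) : Prop where
  hz : 0 ≤ z
  solid : Solid M
  hzM : z ∉ M
  prime : ∀ v : Z, v ⊔ 0 ∈ M ∨ -v ⊔ 0 ∈ M

lemma mem_of_le {M : Submodule ℝ Z} (hM : Solid M) {a b : Z} (ha : 0 ≤ a) (h : a ≤ b)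
    (hb : b ∈ M) : a ∈ M :=
  hM a b (by rw [abs_of_nonneg ha, abs_of_nonneg (ha.trans h)]; exact h) hb

lemma pos_smul_notMem (D : Dat z M) {r : ℝ} (hr : 0 < r) : r • z ∉ M := by
  intro h
  have := M.smul_mem r⁻¹ h
  rw [smul_smul, inv_mul_cancel₀ hr.ne', one_smul] at this
  exact D.hzM this

lemma lev_up (D : Dat z M) {v : Z} {r s : ℝ} (h : r ∈ Lev z M v) (hrs : r ≤ s) :
    s ∈ Lev z M v := by
  refine mem_of_le D.solid le_sup_right (sup_le_sup_right ?_ 0) h
  exact sub_le_sub_left (smul_le_smul_of_nonneg_right hrs D.hz) v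

lemma lev_mem {v : Z} {C : ℝ} (hv : v ≤ C • z) : C ∈ Lev z M v := by
  show (v - C • z) ⊔ 0 ∈ M
  rw [sup_of_le_right (sub_nonpos.2 hv)]
  exact M.zero_mem

lemma lev_bdd (D : Dat z M) {v : Z} {C : ℝ} (hv : -(C • z) ≤ v) {r : ℝ} (hr : r ∈ Lev z M v) :
    -C ≤ r := by
  by_contra h
  push Not at h
  refine pos_smul_notMem D (show 0 < -C - r by linarith) ?_
  refine mem_of_le D.solid (smul_nonneg (by linarith) D.hz) ?_ hr
  refine le_trans ?_ le_sup_left
  rw [sub_smul, neg_smul]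
  exact sub_le_sub_right hv _

lemma Bd.bounds {v : Z} (h : Bd z v) : ∃ C : ℝ, v ≤ C • z ∧ -(C • z) ≤ v := by
  obtain ⟨C, hC⟩ := h
  exact ⟨C, (le_abs_self v).trans hC, by
    exact (neg_le_neg hC).trans (neg_le.1 (neg_le_abs v))⟩

lemma lev_nonempty {v : Z} (h : Bd z v) : (Lev z M v).Nonempty := by
  obtain ⟨C, hC, -⟩ := h.bounds
  exact ⟨C, lev_mem hC⟩

lemma lev_bddBelow (D : Dat z M) {v : Z} (h : Bd z v) : BddBelow (Lev z M v) := by
  obtain ⟨C, -, hC⟩ := h.bounds
  exact ⟨-C, fun r hr => lev_bdd D hC hr⟩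

lemma val_le (D : Dat z M) {v : Z} (h : Bd z v) {r : ℝ} (hr : r ∈ Lev z M v) : val z M v ≤ r :=
  csInf_le (lev_bddBelow D h) hr

lemma mem_of_lt (D : Dat z M) {v : Z} (h : Bd z v) {r : ℝ} (hr : val z M v < r) :
    r ∈ Lev z M v := by
  obtain ⟨s, hs, hsr⟩ := exists_lt_of_csInf_lt (lev_nonempty h) hr
  exact lev_up D hs hsr.le

lemma le_val (D : Dat z M) {v : Z} (h : Bd z v) {r : ℝ} (hr : r ∉ Lev z M v) :
    r ≤ val z M v := by
  by_contra hlt
  push Not at hlt
  exact hr (mem_of_lt D h hlt)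

lemma val_le_of (D : Dat z M) {v : Z} (h : Bd z v) {c : ℝ} (hr : ∀ r, c < r → r ∈ Lev z M v) :
    val z M v ≤ c :=
  le_of_forall_gt_imp_ge_of_dense fun r hcr => val_le D h (hr r hcr)

lemma pos_add (a b : Z) : (a + b) ⊔ 0 ≤ (a ⊔ 0) + (b ⊔ 0) :=
  sup_le (add_le_add le_sup_left le_sup_left) (add_nonneg le_sup_right le_sup_right)

lemma val_add_le (D : Dat z M) {v w : Z} (hv : Bd z v) (hw : Bd z w) :
    val z M (v + w) ≤ val z M v + val z M w := by
  refine val_le_of D (hv.add hw) fun r hr => ?_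
  set d := (r - (val z M v + val z M w)) / 2 with hd
  have h1 := mem_of_lt D hv (r := val z M v + d) (by linarith)
  have h2 := mem_of_lt D hw (r := val z M w + d) (by linarith)
  have h3 : r = (val z M v + d) + (val z M w + d) := by rw [hd]; ring
  show (v + w - r • z) ⊔ 0 ∈ M
  refine mem_of_le D.solid le_sup_right ?_ (M.add_mem h1 h2)
  have h4 : v + w - r • z = (v - (val z M v + d) • z) + (w - (val z M w + d) • z) := by
    rw [h3]; module
  rw [h4]
  exact pos_add _ _

lemma val_zero (D : Dat z M) : val z M 0 = 0 := by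
  apply le_antisymm
  · exact val_le D (Bd.zero z) (lev_mem (by simp))
  · by_contra hlt
    push Not at hlt
    have h1 := mem_of_lt D (Bd.zero z) (r := val z M 0 / 2) (by linarith)
    have h2 := lev_bdd D (v := 0) (C := 0) (by simp) h1
    linarith

lemma val_neg (D : Dat z M) {v : Z} (hv : Bd z v) : val z M (-v) = -val z M v := by
  apply le_antisymm
  · refine val_le_of D hv.neg fun r hr => ?_
    have h1 : -r ∉ Lev z M v := fun h => by
      have := val_le D hv h
      linarith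
    show (-v - r • z) ⊔ 0 ∈ M
    rcases D.prime (v - (-r) • z) with h | h
    · exact absurd h h1
    · have e : -(v - (-r) • z) = -v - r • z := by module
      rwa [e] at h
  · have h := val_add_le D hv hv.neg
    rw [add_neg_cancel, val_zero D] at h
    linarith

lemma val_add (D : Dat z M) {v w : Z} (hv : Bd z v) (hw : Bd z w) :
    val z M (v + w) = val z M v + val z M w := by
  apply le_antisymm (val_add_le D hv hw)
  have h := val_add_le D (hv.add hw) hw.neg
  rw [add_neg_cancel_right, val_neg D hw] at h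
  linarith

lemma val_mono (D : Dat z M) {v w : Z} (hv : Bd z v) (hw : Bd z w) (h : v ≤ w) :
    val z M v ≤ val z M w := by
  refine val_le_of D hv fun r hr => ?_
  exact mem_of_le D.solid le_sup_right (sup_le_sup_right (sub_le_sub_right h _) 0)
    (mem_of_lt D hw hr)

lemma pos_smul (c : ℝ) (hc : 0 ≤ c) (v : Z) : (c • v) ⊔ 0 ≤ c • (v ⊔ 0) :=
  sup_le (smul_le_smul_of_nonneg_left le_sup_left hc) (smul_nonneg hc le_sup_right)

lemma val_smul_le (D : Dat z M) {v : Z} (hv : Bd z v) {c : ℝ} (hc : 0 < c) :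
    val z M (c • v) ≤ c * val z M v := by
  refine val_le_of D (hv.smul c) fun r hr => ?_
  have h1 : val z M v < r / c := by rw [lt_div_iff₀ hc]; linarith
  have h2 := mem_of_lt D hv h1
  refine mem_of_le D.solid le_sup_right ?_ (M.smul_mem c h2)
  refine le_trans (le_of_eq ?_) (pos_smul c hc.le _)
  congr 1
  rw [smul_sub, smul_smul, mul_div_cancel₀ _ hc.ne']

lemma val_smul_pos (D : Dat z M) {v : Z} (hv : Bd z v) {c : ℝ} (hc : 0 < c) :
    val z M (c • v) = c * val z M v := by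
  apply le_antisymm (val_smul_le D hv hc)
  have h := val_smul_le D (hv.smul c) (inv_pos.2 hc)
  rw [smul_smul, inv_mul_cancel₀ hc.ne', one_smul] at h
  have h2 := mul_le_mul_of_nonneg_left h hc.le
  rwa [← mul_assoc, mul_inv_cancel₀ hc.ne', one_mul] at h2

lemma val_smul (D : Dat z M) {v : Z} (hv : Bd z v) (c : ℝ) :
    val z M (c • v) = c * val z M v := by
  rcases lt_trichotomy c 0 with h | h | h
  · have h1 := val_smul_pos D hv.neg (c := -c) (by linarith)
    rw [val_neg D hv] at h1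
    have e : -c • -v = c • v := by module
    rw [e] at h1
    linarith
  · rw [h, zero_smul, val_zero D, zero_mul]
  · exact val_smul_pos D hv h

lemma val_pos (D : Dat z M) {v : Z} (hv : Bd z v) : val z M (v ⊔ 0) = max (val z M v) 0 := by
  have hb : Bd z (v ⊔ 0) := hv.sup (Bd.zero z)
  apply le_antisymm
  · refine val_le_of D hb fun r hr => ?_
    have h1 : val z M v < r := (le_max_left _ _).trans_lt hr
    have h2 : 0 < r := (le_max_right _ _).trans_lt hr
    refine mem_of_le D.solid le_sup_right ?_ (mem_of_lt D hv h1)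
    refine sup_le ?_ le_sup_right
    rw [sub_le_iff_le_add]
    refine sup_le ?_ ?_
    · rw [← sub_le_iff_le_add]; exact le_sup_left
    · exact add_nonneg le_sup_right (smul_nonneg h2.le D.hz)
  · refine max_le (val_mono D hv hb le_sup_left) ?_
    rw [← val_zero D]
    exact val_mono D (Bd.zero z) hb le_sup_right

lemma val_sup (D : Dat z M) {v w : Z} (hv : Bd z v) (hw : Bd z w) :
    val z M (v ⊔ w) = max (val z M v) (val z M w) := by
  have e : v ⊔ w = ((v - w) ⊔ 0) + w := by rw [sup_add, sub_add_cancel, zero_add]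
  rw [e, val_add D ((hv.sub hw).sup (Bd.zero z)) hw, val_pos D (hv.sub hw), sub_eq_add_neg,
    val_add D hv hw.neg, val_neg D hw]
  rw [max_add]
  simp

lemma val_one (D : Dat z M) : val z M z = 1 := by
  have hb := Bd.self D.hz
  apply le_antisymm
  · exact val_le D hb (lev_mem (by simp))
  · by_contra hlt
    push Not at hlt
    have h1 := mem_of_lt D hb (r := (val z M z + 1) / 2) (by linarith)
    have h2 := lev_bdd D (v := z) (C := -1) (by simp) h1
    linarith

lemma isReal (D : Dat z M) : IsReal z (val z M) :=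
  ⟨fun _ _ hv hw => val_add D hv hw, fun c _ hv => val_smul D hv c,
    fun _ _ hv hw => val_sup D hv hw, val_one D⟩

end Hom

/-- **Real homomorphisms determine the order.** -/
theorem le_of_real {z v : Z} (hz : 0 ≤ z) (hv : Bd z v) {c : ℝ}
    (h : ∀ φ : Z → ℝ, IsReal z φ → φ v ≤ c) : v ≤ c • z := by
  have key : ∀ d : ℝ, c < d → v ≤ d • z := by
    intro d hd
    by_contra hnot
    set y := (v - d • z) ⊔ 0 with hy
    have hy0 : y ≠ 0 := by
      intro h0
      apply hnot
      rw [← sub_nonpos]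
      exact le_sup_left.trans (le_of_eq h0)
    obtain ⟨M, hM, hyM, hmax⟩ := exists_maximal hy0
    have hyz : ∃ C : ℝ, y ≤ C • z := by
      have : Bd z y := (hv.sub ((Bd.self hz).smul d)).sup (Bd.zero z)
      obtain ⟨C, hC⟩ := this
      exact ⟨C, (le_abs_self _).trans hC⟩
    have hzM : z ∉ M := by
      intro hzM
      obtain ⟨C, hC⟩ := hyz
      exact hyM (mem_of_le hM le_sup_right hC (M.smul_mem C hzM))
    have D : Dat z M := ⟨hz, hM, hzM, prime le_sup_right hM hyM hmax⟩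
    have h1 := h _ (isReal D)
    have h2 := le_val D hv (r := d) hyM
    linarith
  have h1 : Tendsto (fun n : ℕ => (c + 1 / ((n : ℝ) + 1)) • z) atTop (𝓝 (c • z)) := by
    have h2 : Tendsto (fun n : ℕ => c + 1 / ((n : ℝ) + 1)) atTop (𝓝 (c + 0)) :=
      tendsto_const_nhds.add tendsto_one_div_add_atTop_nhds_zero_nat
    rw [add_zero] at h2
    exact h2.smul_const z
  refine ge_of_tendsto' h1 fun n => key _ ?_
  have : (0 : ℝ) < 1 / ((n : ℝ) + 1) := by positivity
  linarith

theorem abs_le_of_real {z v : Z} (hz : 0 ≤ z) (hv : Bd z v) {c : ℝ}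
    (h : ∀ φ : Z → ℝ, IsReal z φ → |φ v| ≤ c) : |v| ≤ c • z := by
  refine sup_le (le_of_real hz hv fun φ hφ => (le_abs_self _).trans (h φ hφ)) ?_
  refine le_of_real hz hv.neg fun φ hφ => ?_
  have : φ (-v) = -φ v := by
    have := hφ.smul (-1) v hv
    rwa [neg_one_smul, neg_one_mul] at this
  rw [this]
  exact (neg_le_abs _).trans (h φ hφ)

end Q96.FT
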