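import Pool.Agent.Q96.FT.Frem

/-!
The Fremlin tensor product `W` of `X` with itself is not projective when `I = 2^ℕ`.
-/

set_option autoImplicit false
set_option linter.unusedSectionVars false
set_option linter.unusedVariables false

namespace Q96.FT

open Filter Topology NNReal

universe u

instance solidC {K : Type u} [TopologicalSpace K] [CompactSpace K] : HasSolidNorm C(K, ℝ) where
  solid f g h := by
    rw [ContinuousMap.norm_le _ (norm_nonneg _)]
    intro x
    have h1 : |f| x ≤ |g| x := h x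
    rw [ContinuousMap.abs_apply, ContinuousMap.abs_apply] at h1
    exact h1.trans (g.norm_coe_le_norm x)

/-- the first `n` bits -/
def pre (α : ℕ → Bool) (n : ℕ) : List Bool := (List.range n).map α

lemma pre_length (α : ℕ → Bool) (n : ℕ) : (pre α n).length = n := by simp [pre]

lemma pre_succ (α : ℕ → Bool) (n : ℕ) : pre α (n + 1) = pre α n ++ [α n] := by
  simp [pre, List.range_succ]

lemma pre_eq {α β : ℕ → Bool} {m n : ℕ} (h : pre α m = pre β n) : m = n ∧ ∀ k < n, α k = β k := by
  have h1 : m = n := by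
    have := congrArg List.length h
    rwa [pre_length, pre_length] at this
  subst h1
  refine ⟨rfl, fun k hk => ?_⟩
  have := congrArg (fun l => l[k]?) h
  simpa [pre, hk] using this

/-- the prefixes of `α` followed by `false` -/
def SA (α : ℕ → Bool) : Set (List Bool) := {w | ∃ n, α n = false ∧ w = pre α n}
/-- the prefixes of `α` followed by `true` -/
def SB (α : ℕ → Bool) : Set (List Bool) := {w | ∃ n, α n = true ∧ w = pre α n}

lemma inter_finite (α β : ℕ → Bool) : (SA α ∩ SB β).Finite := by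
  refine Set.Subsingleton.finite ?_
  rintro w ⟨⟨n, hn, rfl⟩, ⟨m, hm, h1⟩⟩ w' ⟨⟨n', hn', rfl⟩, ⟨m', hm', h1'⟩⟩
  obtain ⟨rfl, h2⟩ := pre_eq h1
  obtain ⟨rfl, h2'⟩ := pre_eq h1'
  rcases lt_trichotomy n n' with h | h | h
  · have := h2' n h
    rw [hn, hm] at this
    exact absurd this (by decide)
  · rw [h]
  · have := h2 n' h
    rw [hn', hm'] at this
    exact absurd this (by decide)

/-- no set separates the two families -/
lemma no_separation (S : Set (List Bool)) (h1 : ∀ α, (SA α \ S).Finite)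
    (h2 : ∀ α, (SB α ∩ S).Finite) : False := by
  classical
  let L : ℕ → List Bool := fun n => Nat.rec [] (fun _ l => l ++ [decide (l ∈ S)]) n
  have hL : ∀ n, L (n + 1) = L n ++ [decide (L n ∈ S)] := fun n => rfl
  let x : ℕ → Bool := fun n => decide (L n ∈ S)
  have hpre : ∀ n, pre x n = L n := by
    intro n
    induction n with
    | zero => rfl
    | succ n ih => rw [pre_succ, ih, hL]
  have hA : SA x ⊆ SA x \ S := by
    rintro w ⟨n, hn, rfl⟩
    refine ⟨⟨n, hn, rfl⟩, fun hS => ?_⟩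
    rw [hpre] at hS
    have : decide (L n ∈ S) = false := hn
    rw [decide_eq_false_iff_not] at this
    exact this hS
  have hB : SB x ⊆ SB x ∩ S := by
    rintro w ⟨n, hn, rfl⟩
    refine ⟨⟨n, hn, rfl⟩, ?_⟩
    rw [hpre]
    have : decide (L n ∈ S) = true := hn
    rwa [decide_eq_true_iff] at this
  have hfin : (SA x ∪ SB x).Finite := ((h1 x).subset hA).union ((h2 x).subset hB)
  have hinj : Function.Injective (pre x) := fun m n h => (pre_eq h).1
  have hsub : Set.range (pre x) ⊆ SA x ∪ SB x := by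
    rintro _ ⟨n, rfl⟩
    cases h : x n with
    | false => exact Or.inl ⟨n, h, rfl⟩
    | true => exact Or.inr ⟨n, h, rfl⟩
  exact (Set.infinite_range_of_injective hinj) (hfin.subset hsub)

/-- the free ultrafilters -/
def MM : Set (Ultrafilter (List Bool)) := {U | ∀ w, ({w} : Set (List Bool)) ∉ U}

lemma isClosed_MM : IsClosed MM := by
  have : MM = ⋂ w : List Bool, {U : Ultrafilter (List Bool) | ({w} : Set (List Bool)) ∈ U}ᶜ := by
    ext U
    simp [MM]
  rw [this]
  exact isClosed_iInter fun w => (ultrafilter_isOpen_basic _).isClosed_compl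

instance : CompactSpace MM := isCompact_iff_compactSpace.1 isClosed_MM.isCompact

lemma finite_notMem {U : Ultrafilter (List Bool)} (hU : U ∈ MM) {s : Set (List Bool)}
    (hs : s.Finite) : s ∉ U := by
  intro h
  obtain ⟨w, -, hw⟩ := (Ultrafilter.eq_pure_of_finite_mem hs h)
  refine hU w ?_
  rw [hw]
  exact Ultrafilter.mem_pure.2 rfl

/-- compactness -/
lemma finite_of_lt (f : C(Ultrafilter (List Bool), ℝ)) (s : Set (List Bool)) (c : ℝ)
    (h : ∀ U ∈ MM, s ∈ U → c < f U) : {w | w ∈ s ∧ f (pure w) ≤ c}.Finite := by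
  by_contra hinf
  set S' := {w | w ∈ s ∧ f (pure w) ≤ c} with hS'
  have hne : (Filter.cofinite ⊓ 𝓟 S').NeBot := by
    rw [Filter.cofinite_inf_principal_neBot_iff]
    exact hinf
  obtain ⟨U, hU⟩ := Ultrafilter.exists_le (Filter.cofinite ⊓ 𝓟 S')
  have h1 : S' ∈ U := hU (Filter.mem_inf_of_right (Filter.mem_principal_self S'))
  have h2 : U ∈ MM := by
    intro w hw
    have h3 : ({w} : Set (List Bool))ᶜ ∈ U :=
      hU (Filter.mem_inf_of_left (Set.finite_singleton w).compl_mem_cofinite)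
    exact (Ultrafilter.compl_mem_iff_notMem.1 h3) hw
  have h4 : s ∈ U := Filter.mem_of_superset h1 fun w hw => hw.1
  have h5 := h U h2 h4
  have h6 : Tendsto (fun w => f (pure w)) (U : Filter (List Bool)) (𝓝 (f U)) :=
    (f.continuous.tendsto U).comp (Ultrafilter.tendsto_pure_self U)
  have h7 : f U ≤ c := le_of_tendsto h6 (Filter.mem_of_superset h1 fun w hw => hw.2)
  linarith

open Classical in
/-- indicator coordinates -/
noncomputable def ind (F : (ℕ → Bool) → Set (List Bool)) (U : Ultrafilter (List Bool)) :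
    Om (ℕ → Bool) := fun α => if F α ∈ U then ⟨2, by norm_num, le_rfl⟩ else ⟨0, le_rfl, by norm_num⟩

lemma continuous_ind (F : (ℕ → Bool) → Set (List Bool)) : Continuous (ind F) := by
  classical
  refine continuous_pi fun α => ?_
  have hcl : IsClopen {U : Ultrafilter (List Bool) | F α ∈ U} :=
    ⟨ultrafilter_isClosed_basic _, ultrafilter_isOpen_basic _⟩
  refine Continuous.if (fun U hU => ?_) continuous_const continuous_const
  rw [hcl.frontier_eq] at hU
  exact absurd hU (Set.notMem_empty U)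

lemma ind_of_mem {F : (ℕ → Bool) → Set (List Bool)} {U : Ultrafilter (List Bool)} {α : ℕ → Bool}
    (h : F α ∈ U) : ((ind F U α : Set.Icc (0 : ℝ) 2) : ℝ) = 2 := by
  unfold ind; rw [if_pos h]

lemma ind_of_notMem {F : (ℕ → Bool) → Set (List Bool)} {U : Ultrafilter (List Bool)}
    {α : ℕ → Bool} (h : F α ∉ U) : ((ind F U α : Set.Icc (0 : ℝ) 2) : ℝ) = 0 := by
  unfold ind; rw [if_neg h]

/-- the point of the square belonging to an ultrafilter -/
noncomputable def pnt (U : Ultrafilter (List Bool)) : Om (ℕ → Bool) × Om (ℕ → Bool) :=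
  (ind SA U, ind SB U)

lemma continuous_pnt : Continuous pnt := (continuous_ind SA).prodMk (continuous_ind SB)

lemma gen_pnt_le {U : Ultrafilter (List Bool)} (hU : U ∈ MM)
    (a : Option (ℕ → Bool) × Option (ℕ → Bool)) :
    gfun _ a.1 (pnt U).1 * gfun _ a.2 (pnt U).2 ≤ 2 := by
  obtain ⟨a, b⟩ := a
  cases a with
  | none =>
    show (1 : ℝ) * gfun _ b (pnt U).2 ≤ 2
    rw [one_mul]
    exact gfun_le _ _
  | some α =>
    cases b with
    | none =>
      show gfun _ (some α) (pnt U).1 * (1 : ℝ) ≤ 2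
      rw [mul_one]
      exact gfun_le _ _
    | some β =>
      show ((ind SA U α : Set.Icc (0 : ℝ) 2) : ℝ) * ((ind SB U β : Set.Icc (0 : ℝ) 2) : ℝ) ≤ 2
      by_cases h1 : SA α ∈ U
      · have h2 : SB β ∉ U := fun h2 =>
          finite_notMem hU (inter_finite α β) (Filter.inter_mem h1 h2)
        rw [ind_of_notMem h2, mul_zero]
        norm_num
      · rw [ind_of_notMem h1, zero_mul]
        norm_num

/-- the underlying function of the test homomorphism -/
noncomputable def Tfun (F : WI (ℕ → Bool)) : C(MM, ℝ) :=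
  ⟨fun U => (1 / 2 : ℝ) * F (pnt U.1), by
    have h : Continuous fun U : MM => (RL.un F) (pnt U.1) :=
      (RL.un F).continuous.comp (continuous_pnt.comp continuous_subtype_val)
    exact continuous_const.mul h⟩

lemma Tfun_apply (F : WI (ℕ → Bool)) (U : MM) : Tfun F U = (1 / 2 : ℝ) * F (pnt U.1) := rfl

lemma norm_Tfun_le (F : WI (ℕ → Bool)) : ‖Tfun F‖ ≤ 1 * ‖F‖ := by
  rw [one_mul, ContinuousMap.norm_le _ (norm_nonneg F)]
  intro U
  refine le_of_forall_gt_imp_ge_of_dense fun r hr => ?_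
  obtain ⟨e, he, hlt⟩ := RL.exists_lt hr
  have h1 : (genW (ℕ → Bool)).dom e (pnt U.1) ≤ 2 * (genW (ℕ → Bool)).tot e := by
    unfold Gen.dom Gen.tot
    rw [Finsupp.sum, Finsupp.sum, Finset.mul_sum]
    refine Finset.sum_le_sum fun a _ => ?_
    rw [mul_comm (2 : ℝ)]
    exact mul_le_mul_of_nonneg_left (gen_pnt_le U.2 a) (e a).2
  have h2 := he (pnt U.1)
  rw [Tfun_apply, Real.norm_eq_abs, abs_mul, abs_of_pos (by norm_num : (0 : ℝ) < 1 / 2)]
  linarith

/-- the test homomorphism -/
noncomputable def TT : WI (ℕ → Bool) →L[ℝ] C(MM, ℝ) :=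
  LinearMap.mkContinuous
    { toFun := Tfun
      map_add' := fun F G => by
        ext U
        show (1 / 2 : ℝ) * (F (pnt U.1) + G (pnt U.1)) =
          (1 / 2 : ℝ) * F (pnt U.1) + (1 / 2 : ℝ) * G (pnt U.1)
        ring
      map_smul' := fun c F => by
        ext U
        show (1 / 2 : ℝ) * (c * F (pnt U.1)) = c * ((1 / 2 : ℝ) * F (pnt U.1))
        ring } 1 norm_Tfun_le

lemma TT_apply (F : WI (ℕ → Bool)) (U : MM) : TT F U = (1 / 2 : ℝ) * F (pnt U.1) := rfl

lemma norm_TT_le : ‖TT‖ ≤ 1 := LinearMap.mkContinuous_norm_le _ zero_le_one _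

lemma TT_lat : IsLatHom TT := by
  intro F G
  constructor
  · ext U
    show (1 / 2 : ℝ) * max (F (pnt U.1)) (G (pnt U.1)) =
      max ((1 / 2 : ℝ) * F (pnt U.1)) ((1 / 2 : ℝ) * G (pnt U.1))
    rw [mul_max_of_nonneg _ _ (by norm_num)]
  · ext U
    show (1 / 2 : ℝ) * min (F (pnt U.1)) (G (pnt U.1)) =
      min ((1 / 2 : ℝ) * F (pnt U.1)) ((1 / 2 : ℝ) * G (pnt U.1))
    rw [mul_min_of_nonneg _ _ (by norm_num)]

/-- restriction to the free ultrafilters -/
noncomputable def QQ : C(Ultrafilter (List Bool), ℝ) →L[ℝ] C(MM, ℝ) :=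
  LinearMap.mkContinuous
    { toFun := fun f => ⟨fun U => f U.1, f.continuous.comp continuous_subtype_val⟩
      map_add' := fun f g => rfl
      map_smul' := fun c f => rfl } 1 (fun f => by
        rw [one_mul, ContinuousMap.norm_le _ (norm_nonneg f)]
        intro U
        exact f.norm_coe_le_norm U.1)

lemma QQ_apply (f : C(Ultrafilter (List Bool), ℝ)) (U : MM) : QQ f U = f U.1 := rfl

lemma QQ_norm (f : C(Ultrafilter (List Bool), ℝ)) : ‖QQ f‖ ≤ ‖f‖ := by
  rw [ContinuousMap.norm_le _ (norm_nonneg f)]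
  intro U
  exact f.norm_coe_le_norm U.1

lemma QQ_quot : IsLatQuotient QQ := by
  have hex : ∀ y : C(MM, ℝ), ∃ f, QQ f = y ∧ ‖f‖ = ‖y‖ := by
    intro y
    obtain ⟨g, hg⟩ := ContinuousMap.exists_restrict_eq isClosed_MM y
    have hg' : ∀ U : MM, g U.1 = y U := fun U => by
      have := congrArg (fun k : C(MM, ℝ) => k U) hg
      exact this
    let f : C(Ultrafilter (List Bool), ℝ) := ⟨fun U => max (-‖y‖) (min (g U) ‖y‖), by fun_prop⟩
    have hf : QQ f = y := by
      ext U
      show max (-‖y‖) (min (g U.1) ‖y‖) = y U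
      have h1 := y.norm_coe_le_norm U
      rw [Real.norm_eq_abs, abs_le] at h1
      rw [hg', min_eq_left h1.2, max_eq_right h1.1]
    refine ⟨f, hf, le_antisymm ?_ ?_⟩
    · rw [ContinuousMap.norm_le _ (norm_nonneg y)]
      intro U
      rw [Real.norm_eq_abs, abs_le]
      exact ⟨le_max_left _ _, max_le (by linarith [norm_nonneg y]) (min_le_right _ _)⟩
    · rw [← hf]; exact QQ_norm f
  refine ⟨fun y => ?_, fun f g => ⟨rfl, rfl⟩, fun y => ⟨?_, fun b hb => ?_⟩⟩
  · obtain ⟨f, hf, -⟩ := hex y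
    exact ⟨f, hf⟩
  · rintro _ ⟨f, rfl, rfl⟩
    exact QQ_norm f
  · obtain ⟨f, hf, hn⟩ := hex y
    exact hb ⟨f, hf, hn.symm⟩

/-- the generators as elements of `W` -/
noncomputable def ee (a b : Option (ℕ → Bool)) : WI (ℕ → Bool) :=
  RL.mk (tens (gfun _ a) (gfun _ b))

lemma ee_apply (a b : Option (ℕ → Bool)) (p : Om (ℕ → Bool) × Om (ℕ → Bool)) :
    ee a b p = gfun _ a p.1 * gfun _ b p.2 := rfl

lemma norm_ee (a b : Option (ℕ → Bool)) : ‖ee a b‖ ≤ 1 :=
  RL.norm_gen (G := genW (ℕ → Bool)) (a, b)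

/-- **`W` is not projective.** -/
theorem not_projective : ¬ IsProjective.{0} (WI (ℕ → Bool)) := by
  intro h
  obtain ⟨T', hlat, hQ, hn⟩ := h C(Ultrafilter (List Bool), ℝ) C(MM, ℝ) QQ QQ_quot TT TT_lat
    (3 / 10) (by norm_num)
  have hn' : ‖T'‖ ≤ 13 / 10 := by
    have := norm_TT_le
    linarith
  have hT : ∀ F : WI (ℕ → Bool), ∀ U ∈ MM, (T' F) U = (1 / 2 : ℝ) * F (pnt U) := by
    intro F U hU
    have h1 : QQ (T' F) = TT F := by rw [← hQ]; rfl
    have h2 := congrArg (fun k : C(MM, ℝ) => k ⟨U, hU⟩) h1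
    exact h2
  have hub : ∀ a b U, (T' (ee a b)) U ≤ 13 / 10 := by
    intro a b U
    have h1 := (T' (ee a b)).norm_coe_le_norm U
    have h2 := T'.le_opNorm (ee a b)
    have h3 : ‖T'‖ * ‖ee a b‖ ≤ 13 / 10 * 1 :=
      mul_le_mul hn' (norm_ee a b) (norm_nonneg _) (by norm_num)
    have h4 := le_abs_self ((T' (ee a b)) U)
    rw [Real.norm_eq_abs] at h1
    linarith
  have hineq : ∀ (α β : ℕ → Bool) (U : Ultrafilter (List Bool)),
      2 * (T' (ee (some α) none)) U + 2 * (T' (ee none (some β))) U - 4 * (T' (ee none none)) U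
        ≤ (T' (ee (some α) (some β))) U := by
    intro α β U
    have h1 : (2 : ℝ) • ee (some α) none + (2 : ℝ) • ee none (some β) - (4 : ℝ) • ee none none ≤
        ee (some α) (some β) := by
      intro p
      show 2 * (gfun _ (some α) p.1 * 1) + 2 * (1 * gfun _ (some β) p.2) - 4 * (1 * 1) ≤
        gfun _ (some α) p.1 * gfun _ (some β) p.2
      have h2 := gfun_le (some α) p.1
      have h3 := gfun_le (some β) p.2
      nlinarith
    have h2 := hlat.mono h1 U
    rw [map_sub, map_add, map_smul, map_smul, map_smul] at h2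
    exact h2
  let S : Set (List Bool) := {w | ∃ α, 9 / 10 < (T' (ee (some α) none)) (pure w)}
  refine no_separation S (fun α => ?_) fun β => ?_
  · refine (finite_of_lt (T' (ee (some α) none)) (SA α) (9 / 10) fun U hU hs => ?_).subset ?_
    · rw [hT _ U hU, ee_apply]
      show 9 / 10 < (1 / 2 : ℝ) * (((ind SA U α : Set.Icc (0 : ℝ) 2) : ℝ) * 1)
      rw [ind_of_mem hs]
      norm_num
    · rintro w ⟨hw, hwS⟩
      refine ⟨hw, ?_⟩
      by_contra hlt
      exact hwS ⟨α, not_le.1 hlt⟩
  · have h1 := finite_of_lt (T' (ee none (some β))) (SB β) (9 / 10) fun U hU hs => by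
      rw [hT _ U hU, ee_apply]
      show 9 / 10 < (1 / 2 : ℝ) * (1 * ((ind SB U β : Set.Icc (0 : ℝ) 2) : ℝ))
      rw [ind_of_mem hs]
      norm_num
    have h2 := finite_of_lt (-T' (ee none none)) Set.univ (-(11 / 20)) fun U hU hs => by
      rw [ContinuousMap.neg_apply, hT _ U hU, ee_apply]
      show -(11 / 20) < -((1 / 2 : ℝ) * (1 * 1))
      norm_num
    refine (h1.union h2).subset ?_
    rintro w ⟨hw, α, hα⟩
    by_contra hcon
    rw [Set.mem_union, not_or] at hcon
    obtain ⟨hc1, hc2⟩ := hcon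
    have h3 : 9 / 10 < (T' (ee none (some β))) (pure w) := by
      by_contra hh
      exact hc1 ⟨hw, not_lt.1 hh⟩
    have h4 : (T' (ee none none)) (pure w) < 11 / 20 := by
      by_contra hh
      exact hc2 ⟨trivial, by rw [ContinuousMap.neg_apply]; linarith [not_lt.1 hh]⟩
    have h5 := hineq α β (pure w)
    have h6 := hub (some α) (some β) (pure w)
    linarith

/-- the constant `1` is a topological order unit of `X` -/
theorem unit_X (I : Type) : IsTopOrderUnit (RL.mk 1 : XI I) := by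
  refine ⟨fun ω => zero_le_one, fun J _ hsol hJ => ?_⟩
  rw [eq_top_iff]
  intro f _
  refine hsol f (‖RL.un f‖ • (RL.mk 1 : XI I)) (fun ω => ?_) (J.smul_mem _ hJ)
  show |f ω| ≤ |‖RL.un f‖ * 1|
  rw [mul_one, abs_of_nonneg (norm_nonneg (RL.un f))]
  exact (RL.un f).norm_coe_le_norm ω

end Q96.FT
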