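import Mathlib

/-!
Renormings of `C(K)` as Banach lattices, given by families of generators.
-/

set_option autoImplicit false
set_option linter.unusedSectionVars false
set_option linter.unusedVariables false

namespace Q96.FT

open Filter Topology NNReal

/-- a family of nonnegative functions on `K` containing the constant `1` and bounded by `C` -/
structure Gen (K : Type) [TopologicalSpace K] [CompactSpace K] where
  A : Type
  g : A → C(K, ℝ)
  nonneg : ∀ a x, 0 ≤ g a x
  C : ℝ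
  le : ∀ a x, g a x ≤ C
  a0 : A
  one : ∀ x, g a0 x = 1

variable {K : Type} [TopologicalSpace K] [CompactSpace K]

/-- The space `C(K)` with the norm `inf {∑ c_a : |f| ≤ ∑ c_a g_a, c ≥ 0 finitely supported}`. -/
def RL (G : Gen K) : Type := C(K, ℝ)

namespace RL

variable {G : Gen K}

noncomputable instance : AddCommGroup (RL G) := inferInstanceAs (AddCommGroup C(K, ℝ))
noncomputable instance : Module ℝ (RL G) := inferInstanceAs (Module ℝ C(K, ℝ))
noncomputable instance : Lattice (RL G) := inferInstanceAs (Lattice C(K, ℝ))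
instance : IsOrderedAddMonoid (RL G) := inferInstanceAs (IsOrderedAddMonoid C(K, ℝ))
instance : IsOrderedModule ℝ (RL G) := inferInstanceAs (IsOrderedModule ℝ C(K, ℝ))
instance : FunLike (RL G) K ℝ := inferInstanceAs (FunLike C(K, ℝ) K ℝ)

/-- the identity -/
def mk (f : C(K, ℝ)) : RL G := f
/-- the identity -/
def un (f : RL G) : C(K, ℝ) := f

@[simp] lemma mk_apply (f : C(K, ℝ)) (x : K) : (mk f : RL G) x = f x := rfl
@[simp] lemma un_apply (f : RL G) (x : K) : un f x = f x := rfl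
@[simp] lemma mk_un (f : RL G) : mk (un f) = f := rfl
@[simp] lemma un_mk (f : C(K, ℝ)) : un (mk f : RL G) = f := rfl
@[ext] lemma ext {f g : RL G} (h : ∀ x, f x = g x) : f = g := DFunLike.ext _ _ h
@[simp] lemma add_apply (f g : RL G) (x : K) : (f + g) x = f x + g x := rfl
@[simp] lemma sub_apply (f g : RL G) (x : K) : (f - g) x = f x - g x := rfl
@[simp] lemma neg_apply (f : RL G) (x : K) : (-f) x = -f x := rfl
@[simp] lemma zero_apply (x : K) : (0 : RL G) x = 0 := rfl
@[simp] lemma smul_apply (c : ℝ) (f : RL G) (x : K) : (c • f) x = c * f x := rfl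
@[simp] lemma sup_apply (f g : RL G) (x : K) : (f ⊔ g) x = max (f x) (g x) := rfl
@[simp] lemma inf_apply (f g : RL G) (x : K) : (f ⊓ g) x = min (f x) (g x) := rfl
lemma abs_apply (f : RL G) (x : K) : |f| x = |f x| := rfl
lemma le_def {f g : RL G} : f ≤ g ↔ ∀ x, f x ≤ g x := Iff.rfl

end RL

namespace Gen

variable (G : Gen K)

/-- the dominating function -/
noncomputable def dom (c : G.A →₀ ℝ≥0) (x : K) : ℝ := c.sum fun a t => (t : ℝ) * G.g a x

/-- the total mass -/
noncomputable def tot (c : G.A →₀ ℝ≥0) : ℝ := c.sum fun _ t => (t : ℝ)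

variable {G}

lemma dom_add (c d : G.A →₀ ℝ≥0) (x : K) : G.dom (c + d) x = G.dom c x + G.dom d x := by
  classical
  unfold dom
  refine Finsupp.sum_add_index' (fun a => by simp) fun a s t => ?_
  push_cast
  ring

lemma tot_add (c d : G.A →₀ ℝ≥0) : G.tot (c + d) = G.tot c + G.tot d := by
  classical
  unfold tot
  exact Finsupp.sum_add_index' (fun a => by simp) fun a s t => by push_cast; ring

lemma dom_smul (t : ℝ≥0) (c : G.A →₀ ℝ≥0) (x : K) : G.dom (t • c) x = t * G.dom c x := by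
  unfold dom
  rw [Finsupp.sum_smul_index (fun a => by simp), Finsupp.sum, Finsupp.sum, Finset.mul_sum]
  refine Finset.sum_congr rfl fun a _ => ?_
  push_cast
  ring

lemma tot_smul (t : ℝ≥0) (c : G.A →₀ ℝ≥0) : G.tot (t • c) = t * G.tot c := by
  unfold tot
  rw [Finsupp.sum_smul_index (fun a => by simp), Finsupp.sum, Finsupp.sum, Finset.mul_sum]
  refine Finset.sum_congr rfl fun a _ => ?_
  push_cast
  ring

lemma dom_single (a : G.A) (t : ℝ≥0) (x : K) : G.dom (Finsupp.single a t) x = t * G.g a x := by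
  unfold dom
  rw [Finsupp.sum_single_index (by simp)]

lemma tot_single (a : G.A) (t : ℝ≥0) : G.tot (Finsupp.single a t) = t := by
  unfold tot
  rw [Finsupp.sum_single_index (by simp)]

lemma dom_zero (x : K) : G.dom 0 x = 0 := Finsupp.sum_zero_index

lemma tot_zero : G.tot 0 = 0 := Finsupp.sum_zero_index

lemma tot_nonneg (c : G.A →₀ ℝ≥0) : 0 ≤ G.tot c := Finset.sum_nonneg fun a _ => (c a).2

lemma dom_nonneg (c : G.A →₀ ℝ≥0) (x : K) : 0 ≤ G.dom c x :=
  Finset.sum_nonneg fun a _ => mul_nonneg (c a).2 (G.nonneg a x)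

lemma C_pos [Nonempty K] : 1 ≤ G.C := by
  obtain ⟨x⟩ := ‹Nonempty K›
  have := G.le G.a0 x
  rwa [G.one] at this

lemma dom_le (c : G.A →₀ ℝ≥0) (x : K) : G.dom c x ≤ G.C * G.tot c := by
  unfold dom tot
  rw [Finsupp.sum, Finsupp.sum, Finset.mul_sum]
  refine Finset.sum_le_sum fun a _ => ?_
  rw [mul_comm]
  exact mul_le_mul_of_nonneg_right (G.le a x) (c a).2

/-- admissible values -/
def Adm (G : Gen K) (f : C(K, ℝ)) : Set ℝ := {r | ∃ c : G.A →₀ ℝ≥0, (∀ x, |f x| ≤ G.dom c x) ∧ G.tot c = r}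

/-- the norm -/
noncomputable def nrm (G : Gen K) (f : C(K, ℝ)) : ℝ := sInf (G.Adm f)

lemma adm_bdd (f : C(K, ℝ)) : BddBelow (G.Adm f) := ⟨0, by rintro _ ⟨c, -, rfl⟩; exact tot_nonneg c⟩

lemma adm_norm (f : C(K, ℝ)) : ‖f‖ ∈ G.Adm f := by
  refine ⟨Finsupp.single G.a0 ‖f‖₊, fun x => ?_, ?_⟩
  · rw [dom_single, G.one, mul_one]
    exact f.norm_coe_le_norm x
  · rw [tot_single]; rfl

lemma nrm_le_of {f : C(K, ℝ)} (c : G.A →₀ ℝ≥0) (h : ∀ x, |f x| ≤ G.dom c x) :
    G.nrm f ≤ G.tot c := csInf_le (adm_bdd f) ⟨c, h, rfl⟩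

lemma nrm_le_norm (f : C(K, ℝ)) : G.nrm f ≤ ‖f‖ := csInf_le (adm_bdd f) (adm_norm f)

lemma nrm_nonneg (f : C(K, ℝ)) : 0 ≤ G.nrm f :=
  le_csInf ⟨_, adm_norm f⟩ (by rintro _ ⟨c, -, rfl⟩; exact tot_nonneg c)

lemma exists_lt {f : C(K, ℝ)} {r : ℝ} (h : G.nrm f < r) :
    ∃ c : G.A →₀ ℝ≥0, (∀ x, |f x| ≤ G.dom c x) ∧ G.tot c < r := by
  obtain ⟨_, ⟨c, hc, rfl⟩, h2⟩ := exists_lt_of_csInf_lt ⟨_, adm_norm f⟩ h
  exact ⟨c, hc, h2⟩

lemma apply_le (f : C(K, ℝ)) (x : K) : |f x| ≤ G.C * G.nrm f := by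
  have : Nonempty K := ⟨x⟩
  have hC := G.C_pos
  refine le_of_forall_gt_imp_ge_of_dense fun s hs => ?_
  have h1 : G.nrm f < s / G.C := by
    rw [lt_div_iff₀ (by linarith), mul_comm]
    exact hs
  obtain ⟨c, hc, hlt⟩ := exists_lt h1
  have h2 := (hc x).trans (dom_le c x)
  rw [lt_div_iff₀ (by linarith)] at hlt
  linarith

lemma norm_le (f : C(K, ℝ)) : ‖f‖ ≤ |G.C| * G.nrm f := by
  rw [ContinuousMap.norm_le _ (mul_nonneg (abs_nonneg _) (nrm_nonneg f))]
  intro x
  exact (G.apply_le f x).trans (mul_le_mul_of_nonneg_right (le_abs_self _) (nrm_nonneg f))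

lemma nrm_add (f g : C(K, ℝ)) : G.nrm (f + g) ≤ G.nrm f + G.nrm g := by
  refine le_of_forall_gt_imp_ge_of_dense fun s hs => ?_
  set d := (s - (G.nrm f + G.nrm g)) / 2 with hd
  obtain ⟨c, hc, hlt⟩ := exists_lt (G := G) (f := f) (r := G.nrm f + d) (by linarith)
  obtain ⟨c', hc', hlt'⟩ := exists_lt (G := G) (f := g) (r := G.nrm g + d) (by linarith)
  have h1 := nrm_le_of (G := G) (f := f + g) (c + c') fun x => by
    rw [dom_add]
    exact (abs_add_le _ _).trans (add_le_add (hc x) (hc' x))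
  rw [tot_add] at h1
  linarith

lemma nrm_smul_le (t : ℝ) (f : C(K, ℝ)) : G.nrm (t • f) ≤ |t| * G.nrm f := by
  rcases eq_or_ne t 0 with rfl | ht
  · rw [zero_smul, abs_zero, zero_mul]
    have := nrm_le_norm (G := G) (0 : C(K, ℝ))
    rwa [norm_zero] at this
  · have ht' : 0 < |t| := abs_pos.2 ht
    refine le_of_forall_gt_imp_ge_of_dense fun s hs => ?_
    have h1 : G.nrm f < s / |t| := by rw [lt_div_iff₀ ht', mul_comm]; exact hs
    obtain ⟨c, hc, hlt⟩ := exists_lt h1
    have h2 := nrm_le_of (G := G) (f := t • f) (‖t‖₊ • c) fun x => by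
      rw [dom_smul]
      show |t * f x| ≤ |t| * _
      rw [abs_mul]
      exact mul_le_mul_of_nonneg_left (hc x) (abs_nonneg t)
    rw [tot_smul] at h2
    rw [lt_div_iff₀ ht'] at hlt
    refine h2.trans ?_
    show |t| * _ ≤ s
    linarith

lemma nrm_smul (t : ℝ) (f : C(K, ℝ)) : G.nrm (t • f) = |t| * G.nrm f := by
  apply le_antisymm (nrm_smul_le t f)
  rcases eq_or_ne t 0 with rfl | ht
  · rw [abs_zero, zero_mul]; exact nrm_nonneg _
  · have ht' : 0 < |t| := abs_pos.2 ht
    have h := nrm_smul_le (G := G) t⁻¹ (t • f)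
    rw [smul_smul, inv_mul_cancel₀ ht, one_smul, abs_inv] at h
    have h2 := mul_le_mul_of_nonneg_left h ht'.le
    rwa [← mul_assoc, mul_inv_cancel₀ ht'.ne', one_mul] at h2

end Gen

namespace RL

variable {G : Gen K}

noncomputable instance : Norm (RL G) := ⟨fun f => G.nrm (un f)⟩

lemma norm_def (f : RL G) : ‖f‖ = G.nrm (un f) := rfl

lemma core : NormedSpace.Core ℝ (RL G) where
  norm_nonneg f := G.nrm_nonneg (un f)
  norm_smul c f := G.nrm_smul c (un f)
  norm_triangle f g := G.nrm_add (un f) (un g)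
  norm_eq_zero_iff f := by
    constructor
    · intro h
      have h1 := G.norm_le (un f)
      rw [norm_def] at h
      rw [h, mul_zero] at h1
      have h2 : un f = 0 := norm_le_zero_iff.1 h1
      exact h2
    · rintro rfl
      refine le_antisymm ?_ (G.nrm_nonneg _)
      have := G.nrm_le_norm (0 : C(K, ℝ))
      rwa [norm_zero] at this

noncomputable instance : NormedAddCommGroup (RL G) := NormedAddCommGroup.ofCore core
noncomputable instance : NormedSpace ℝ (RL G) := NormedSpace.ofCore core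

instance : HasSolidNorm (RL G) where
  solid f g h := by
    refine le_of_forall_gt_imp_ge_of_dense fun s hs => ?_
    obtain ⟨c, hc, hlt⟩ := Gen.exists_lt (G := G) (f := un g) hs
    exact (Gen.nrm_le_of c fun x => (h x).trans (hc x)).trans hlt.le

lemma norm_le_sup (f : C(K, ℝ)) : ‖(mk f : RL G)‖ ≤ ‖f‖ := G.nrm_le_norm f
lemma sup_le_norm (f : RL G) : ‖un f‖ ≤ |G.C| * ‖f‖ := G.norm_le (un f)

/-- the identity, as a continuous linear map -/
noncomputable def mkL : C(K, ℝ) →L[ℝ] RL G :=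
  LinearMap.mkContinuous { toFun := mk, map_add' := fun _ _ => rfl, map_smul' := fun _ _ => rfl } 1
    fun f => by rw [one_mul]; exact norm_le_sup f

/-- the identity, as a continuous linear map -/
noncomputable def unL : RL G →L[ℝ] C(K, ℝ) :=
  LinearMap.mkContinuous { toFun := un, map_add' := fun _ _ => rfl, map_smul' := fun _ _ => rfl }
    |G.C| fun f => sup_le_norm f

@[simp] lemma mkL_apply (f : C(K, ℝ)) : (mkL f : RL G) = mk f := rfl
@[simp] lemma unL_apply (f : RL G) : unL f = un f := rfl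

instance : CompleteSpace (RL G) := by
  refine Metric.complete_of_cauchySeq_tendsto fun u hu => ?_
  have h1 : CauchySeq fun n => (unL (u n) : C(K, ℝ)) := hu.map unL.uniformContinuous
  obtain ⟨f, hf⟩ := cauchySeq_tendsto_of_complete h1
  exact ⟨mk f, ((mkL (G := G)).continuous.tendsto f).comp hf⟩

/-- norm bound from a dominating combination -/
lemma norm_le_of {f : RL G} (c : G.A →₀ ℝ≥0) (h : ∀ x, |f x| ≤ G.dom c x) : ‖f‖ ≤ G.tot c :=
  Gen.nrm_le_of c h

lemma exists_lt {f : RL G} {r : ℝ} (h : ‖f‖ < r) :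
    ∃ c : G.A →₀ ℝ≥0, (∀ x, |f x| ≤ G.dom c x) ∧ G.tot c < r := Gen.exists_lt h

/-- the generators have norm at most one -/
lemma norm_gen (a : G.A) : ‖(mk (G.g a) : RL G)‖ ≤ 1 := by
  have := norm_le_of (f := (mk (G.g a) : RL G)) (Finsupp.single a 1) fun x => by
    rw [Gen.dom_single, mk_apply, abs_of_nonneg (G.nonneg a x)]
    simp
  rwa [Gen.tot_single, NNReal.coe_one] at this

/-- the dominating combination, as an element -/
noncomputable def domE (c : G.A →₀ ℝ≥0) : RL G := c.sum fun a t => (t : ℝ) • (mk (G.g a) : RL G)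

lemma domE_apply (c : G.A →₀ ℝ≥0) (x : K) : domE c x = G.dom c x := by
  unfold domE Gen.dom
  rw [Finsupp.sum, Finsupp.sum]
  have h : ∀ (s : Finset G.A) (F : G.A → RL G), (∑ a ∈ s, F a) x = ∑ a ∈ s, F a x := by
    classical
    intro s F
    induction s using Finset.induction_on with
    | empty => rfl
    | insert a s ha ih => rw [Finset.sum_insert ha, Finset.sum_insert ha, add_apply, ih]
  rw [h]
  rfl

end RL

end Q96.FT
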