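import Pool.Agent.Q96.FT.Calc
import Pool.Agent.Q96.FT.Norm
import Pool.Agent.Q96.FT.Defs

/-!
`C([0,2]^I)` with the norm generated by `1` and the coordinates is a projective Banach lattice.
-/

set_option autoImplicit false
set_option linter.unusedSectionVars false
set_option linter.unusedVariables false

namespace Q96.FT

open Filter Topology NNReal

universe u v

variable (I : Type)

/-- the generators on the cube: `1` and the coordinates -/
noncomputable def gfun : Option I → C(Om I, ℝ)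
  | none => 1
  | some i => xc i

variable {I} in
lemma gfun_nonneg (a : Option I) (x : Om I) : 0 ≤ gfun I a x := by
  cases a with
  | none => exact zero_le_one
  | some i => exact xc_nonneg i x

variable {I} in
lemma gfun_le (a : Option I) (x : Om I) : gfun I a x ≤ 2 := by
  cases a with
  | none => exact one_le_two
  | some i => exact xc_le i x

/-- the generating family of the cube -/
noncomputable def genX : Gen (Om I) where
  A := Option I
  g := gfun I
  nonneg := gfun_nonneg
  C := 2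
  le := gfun_le
  a0 := none
  one _ := rfl

/-- the Banach lattice `X` -/
abbrev XI : Type := RL (genX I)

variable {I}

lemma IsLatHom.map_abs' {X : Type u} {Y : Type v} [NormedAddCommGroup X] [NormedSpace ℝ X]
    [Lattice X] [NormedAddCommGroup Y] [NormedSpace ℝ Y] [Lattice Y] {T : X →L[ℝ] Y}
    (hT : IsLatHom T) (x : X) : T |x| = |T x| := by
  show T (x ⊔ -x) = T x ⊔ -T x
  rw [(hT x (-x)).1, map_neg]

lemma IsLatHom.mono {X : Type u} {Y : Type v} [NormedAddCommGroup X] [NormedSpace ℝ X]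
    [Lattice X] [NormedAddCommGroup Y] [NormedSpace ℝ Y] [Lattice Y] {T : X →L[ℝ] Y}
    (hT : IsLatHom T) {x y : X} (h : x ≤ y) : T x ≤ T y := by
  have := (hT x y).1
  rw [sup_of_le_right h] at this
  rw [this]
  exact le_sup_left

section Lift

variable {V : Type v} [NormedAddCommGroup V] [NormedSpace ℝ V] [CompleteSpace V] [Lattice V]
  [IsOrderedAddMonoid V] [IsOrderedModule ℝ V] [HasSolidNorm V]

lemma norm_abs'' (v : V) : ‖|v|‖ = ‖v‖ := norm_abs_eq_norm v

variable {z : V} {zi : I → V} (D : Dt2 z zi)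

lemma fcal_abs_le (f : C(Om I, ℝ)) : |fcal D f| ≤ ‖f‖ • z := by
  have h := (fcal_rep D f).close D (g := 0) (w := 0) ((fcal_rep D 0).unique D (by
    simpa using fcal_rep D 0) ▸ (by simpa using fcal_rep D 0)) (δ := ‖f‖) (fun ω => by
      simpa [Real.norm_eq_abs] using f.norm_coe_le_norm ω)
  simpa using h

lemma fcal_mono {f g : C(Om I, ℝ)} (h : f ≤ g) : fcal D f ≤ fcal D g := by
  have := fcal_sup D f g
  rw [sup_of_le_right h] at this
  rw [this]
  exact le_sup_left

lemma fcal_abs (f : C(Om I, ℝ)) : fcal D |f| = |fcal D f| := by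
  show fcal D (f ⊔ -f) = fcal D f ⊔ -fcal D f
  rw [fcal_sup, map_neg]

lemma fcal_gen (a : Option I) : fcal D (gfun I a) = (a.elim z zi) := by
  cases a with
  | none => exact fcal_one D
  | some i => exact fcal_x D i

/-- norm bound for the functional calculus -/
lemma norm_fcal_le {c : ℝ} (hz : ‖z‖ ≤ c) (hzi : ∀ i, ‖zi i‖ ≤ c) (f : XI I) :
    ‖fcal D (RL.un f)‖ ≤ c * ‖f‖ := by
  have hc : 0 ≤ c := (norm_nonneg z).trans hz
  have key : ∀ r, ‖f‖ < r → ‖fcal D (RL.un f)‖ ≤ c * r := by
    intro r hr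
    obtain ⟨e, he, hlt⟩ := RL.exists_lt hr
    have h1 : |RL.un f| ≤ RL.un (RL.domE e) := fun x => by
      have := he x
      rw [← RL.domE_apply] at this
      exact this
    have h2 : fcal D (RL.un (RL.domE e)) = e.sum fun a t => (t : ℝ) • fcal D (gfun I a) := by
      have : RL.un (RL.domE e) = ∑ a ∈ e.support, ((e a : ℝ≥0) : ℝ) • gfun I a := rfl
      rw [this, map_sum]
      exact Finset.sum_congr rfl fun a _ => map_smul _ _ _
    have h3 : ‖fcal D (RL.un (RL.domE e))‖ ≤ c * (genX I).tot e := by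
      rw [h2, Finsupp.sum]
      refine (norm_sum_le _ _).trans ?_
      unfold Gen.tot
      rw [Finsupp.sum, Finset.mul_sum]
      refine Finset.sum_le_sum fun a _ => ?_
      have hb : ‖fcal D (gfun I a)‖ ≤ c := by
        rw [fcal_gen]
        cases a with
        | none => exact hz
        | some i => exact hzi i
      have hn : ‖((e a : ℝ≥0) : ℝ)‖ = ((e a : ℝ≥0) : ℝ) := Real.norm_of_nonneg (e a).2
      refine (norm_smul_le _ _).trans ?_
      rw [mul_comm]
      exact (mul_le_mul hb hn.le (norm_nonneg _) hc)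
    have h4 : ‖fcal D (RL.un f)‖ ≤ ‖fcal D (RL.un (RL.domE e))‖ := by
      refine HasSolidNorm.solid ?_
      rw [← fcal_abs]
      exact (fcal_mono D h1).trans (le_abs_self _)
    exact h4.trans (h3.trans (mul_le_mul_of_nonneg_left hlt.le hc))
  have h5 : Tendsto (fun n : ℕ => c * (‖f‖ + 1 / ((n : ℝ) + 1))) atTop (𝓝 (c * (‖f‖ + 0))) :=
    (tendsto_const_nhds.add tendsto_one_div_add_atTop_nhds_zero_nat).const_mul c
  rw [add_zero] at h5
  refine ge_of_tendsto' h5 fun n => key _ ?_
  have : (0 : ℝ) < 1 / ((n : ℝ) + 1) := by positivity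
  linarith

end Lift

/-- **`X` is projective.** -/
theorem projective (I : Type) : IsProjective.{u} (XI I) := by
  intro V Z _ _ _ _ _ _ _ _ _ _ _ _ _ _ Q hQ T hT ε hε
  rcases eq_or_ne T 0 with rfl | hT0
  · refine ⟨0, fun x y => by simp, by simp, by simp⟩
  have hτ : 0 < ‖T‖ := norm_pos_iff.2 hT0
  have hlt : ‖T‖ < (1 + ε) * ‖T‖ := by nlinarith
  have hlift : ∀ a : Option I, ∃ y : V, 0 ≤ y ∧ Q y = T (RL.mk (gfun I a)) ∧
      ‖y‖ ≤ (1 + ε) * ‖T‖ := by
    intro a
    have h1 : ‖T (RL.mk (gfun I a))‖ ≤ ‖T‖ := by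
      have h := T.le_opNorm (RL.mk (gfun I a))
      have h' := RL.norm_gen (G := genX I) a
      exact h.trans (mul_le_of_le_one_right hτ.le h')
    obtain ⟨_, ⟨y, hy, rfl⟩, hy2⟩ := (hQ.norm (T (RL.mk (gfun I a)))).exists_between
      (h1.trans_lt hlt)
    refine ⟨|y|, abs_nonneg y, ?_, ?_⟩
    · rw [hQ.lat.map_abs', hy, abs_of_nonneg]
      have := hT.mono (x := 0) (y := RL.mk (gfun I a)) fun x => gfun_nonneg a x
      rwa [map_zero] at this
    · rw [norm_abs_eq_norm]; exact hy2.2.le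
  choose y hy0 hyQ hyn using hlift
  have hQinf : ∀ i : I, Q (y (some i) ⊓ (2 : ℝ) • y none) = T (RL.mk (gfun I (some i))) := by
    intro i
    rw [(hQ.lat _ _).2, map_smul, hyQ, hyQ, ← map_smul]
    refine inf_of_le_left (hT.mono fun x => ?_)
    show xc i x ≤ 2 * 1
    rw [mul_one]
    exact xc_le i x
  have D : Dt2 (y none) (fun i => y (some i) ⊓ (2 : ℝ) • y none) :=
    ⟨hy0 none, fun i => le_inf (hy0 _) (smul_nonneg (by norm_num) (hy0 none)),
      fun i => inf_le_right⟩
  have hni : ∀ i, ‖y (some i) ⊓ (2 : ℝ) • y none‖ ≤ (1 + ε) * ‖T‖ := by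
    intro i
    refine le_trans (HasSolidNorm.solid ?_) (hyn (some i))
    rw [abs_of_nonneg (D.h0 i), abs_of_nonneg (hy0 _)]
    exact inf_le_left
  have hbd := norm_fcal_le D (hyn none) hni
  let T' : XI I →L[ℝ] V := LinearMap.mkContinuous
    { toFun := fun f => fcal D (RL.un f)
      map_add' := fun f g => map_add (fcal D) _ _
      map_smul' := fun c f => map_smul (fcal D) _ _ } ((1 + ε) * ‖T‖) hbd
  have hT' : ∀ f, T' f = fcal D (RL.un f) := fun f => rfl
  have hlat : IsLatHom T' := fun f g => ⟨fcal_sup D _ _, fcal_inf D _ _⟩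
  refine ⟨T', hlat, ?_, LinearMap.mkContinuous_norm_le _ (by positivity) hbd⟩
  have hall : ∀ f : C(Om I, ℝ), f ∈ {f : C(Om I, ℝ) | Q (T' (RL.mkL f)) = T (RL.mkL f)} := by
    refine all_mem ?_ ?_ ?_ ?_ ?_ ?_ ?_
    · exact isClosed_eq (Q.continuous.comp (T'.continuous.comp RL.mkL.continuous))
        (T.continuous.comp RL.mkL.continuous)
    · intro f hf g hg
      have hf' : Q (T' (RL.mkL f)) = T (RL.mkL f) := hf
      have hg' : Q (T' (RL.mkL g)) = T (RL.mkL g) := hg
      show Q (T' (RL.mkL (f + g))) = T (RL.mkL (f + g))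
      rw [map_add, map_add, map_add, map_add, hf', hg']
    · intro c f hf
      have hf' : Q (T' (RL.mkL f)) = T (RL.mkL f) := hf
      show Q (T' (RL.mkL (c • f))) = T (RL.mkL (c • f))
      rw [map_smul, map_smul, map_smul, map_smul, hf']
    · intro f hf g hg
      have hf' : Q (T' (RL.mkL f)) = T (RL.mkL f) := hf
      have hg' : Q (T' (RL.mkL g)) = T (RL.mkL g) := hg
      show Q (T' (RL.mkL f ⊔ RL.mkL g)) = T (RL.mkL f ⊔ RL.mkL g)
      rw [(hlat _ _).1, (hQ.lat _ _).1, (hT _ _).1, hf', hg']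
    · intro f hf g hg
      have hf' : Q (T' (RL.mkL f)) = T (RL.mkL f) := hf
      have hg' : Q (T' (RL.mkL g)) = T (RL.mkL g) := hg
      show Q (T' (RL.mkL f ⊓ RL.mkL g)) = T (RL.mkL f ⊓ RL.mkL g)
      rw [(hlat _ _).2, (hQ.lat _ _).2, (hT _ _).2, hf', hg']
    · show Q (fcal D 1) = T (RL.mk (gfun I none))
      rw [fcal_one, hyQ]
    · intro i
      show Q (fcal D (xc i)) = T (RL.mk (gfun I (some i)))
      rw [fcal_x, hQinf]
  ext f
  exact hall (RL.un f)

end Q96.FT
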